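import Mathlib

/-! The equations of a linear section of codimension two of the Lagrangian Grassmannian `LG(3, 6)`.

The homogeneous coordinates are `p`, the entries of the symmetric matrices
`M = (r z x; z s y; x y t)` and `N = (n r u; r s v; u v w)`, and `d`; the equations are
`p N = adj M`, `d M = adj N`, `M N = p d`. -/

set_option autoImplicit false

namespace Pool.Agent.K1H15.C4

/-- the equations `p N = adj M`, `d M = adj N`, `M N = p d` -/
structure E (p x y z t r s n u v w d : ℂ) : Prop where
  e1 : p * n = s * t - y ^ 2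
  e2 : p * r = x * y - z * t
  e3 : p * s = r * t - x ^ 2
  e4 : p * u = z * y - x * s
  e5 : p * v = z * x - r * y
  e6 : p * w = r * s - z ^ 2
  e7 : d * r = s * w - v ^ 2
  e8 : d * z = u * v - r * w
  e9 : d * x = r * v - u * s
  e10 : d * s = n * w - u ^ 2
  e11 : d * y = r * u - n * v
  e12 : d * t = n * s - r ^ 2
  e13 : r * n + z * r + x * u = p * d
  e14 : r * r + z * s + x * v = 0
  e15 : r * u + z * v + x * w = 0
  e16 : z * n + s * r + y * u = 0
  e17 : z * r + s * s + y * v = p * d
  e18 : z * u + s * v + y * w = 0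
  e19 : x * n + y * r + t * u = 0
  e20 : x * r + y * s + t * v = 0
  e21 : x * u + y * v + t * w = p * d

/-- homogeneity -/
theorem E.smul {p x y z t r s n u v w d : ℂ} (h : E p x y z t r s n u v w d) (c : ℂ) :
    E (c * p) (c * x) (c * y) (c * z) (c * t) (c * r) (c * s) (c * n) (c * u) (c * v) (c * w)
      (c * d) := by
  obtain ⟨e1, e2, e3, e4, e5, e6, e7, e8, e9, e10, e11, e12, e13, e14, e15, e16, e17, e18, e19,
    e20, e21⟩ := h
  refine ⟨?_, ?_, ?_, ?_, ?_, ?_, ?_, ?_, ?_, ?_, ?_, ?_, ?_, ?_, ?_, ?_, ?_, ?_, ?_, ?_, ?_⟩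
  · linear_combination c ^ 2 * e1
  · linear_combination c ^ 2 * e2
  · linear_combination c ^ 2 * e3
  · linear_combination c ^ 2 * e4
  · linear_combination c ^ 2 * e5
  · linear_combination c ^ 2 * e6
  · linear_combination c ^ 2 * e7
  · linear_combination c ^ 2 * e8
  · linear_combination c ^ 2 * e9
  · linear_combination c ^ 2 * e10
  · linear_combination c ^ 2 * e11
  · linear_combination c ^ 2 * e12
  · linear_combination c ^ 2 * e13
  · linear_combination c ^ 2 * e14
  · linear_combination c ^ 2 * e15
  · linear_combination c ^ 2 * e16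
  · linear_combination c ^ 2 * e17
  · linear_combination c ^ 2 * e18
  · linear_combination c ^ 2 * e19
  · linear_combination c ^ 2 * e20
  · linear_combination c ^ 2 * e21

/-- the symmetry which exchanges the two fixed lines of the torus -/
theorem E.sym {p x y z t r s n u v w d : ℂ} (h : E p x y z t r s n u v w d) :
    E w (-v) u (-z) d (-r) (-s) (-n) y (-x) p t := by
  obtain ⟨e1, e2, e3, e4, e5, e6, e7, e8, e9, e10, e11, e12, e13, e14, e15, e16, e17, e18, e19,
    e20, e21⟩ := h
  refine ⟨?_, ?_, ?_, ?_, ?_, ?_, ?_, ?_, ?_, ?_, ?_, ?_, ?_, ?_, ?_, ?_, ?_, ?_, ?_, ?_, ?_⟩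
  · linear_combination e10
  · linear_combination -e8
  · linear_combination e7
  · linear_combination e18
  · linear_combination -e15
  · linear_combination e6
  · linear_combination e3
  · linear_combination -e2
  · linear_combination -e20
  · linear_combination e1
  · linear_combination e19
  · linear_combination e12
  · linear_combination e13 - e21
  · linear_combination e14
  · linear_combination -e5
  · linear_combination e16
  · linear_combination e17 - e21
  · linear_combination e4
  · linear_combination e11
  · linear_combination -e9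
  · linear_combination -e21

/-- the points with `p = 1` -/
theorem E_p (x y z t r s n u v w d : ℂ) (hr : r = x * y - z * t) (hs : s = r * t - x ^ 2)
    (hn : n = s * t - y ^ 2) (hu : u = z * y - x * s) (hv : v = z * x - r * y)
    (hw : w = r * s - z ^ 2) (hd : d = x * u + y * v + t * w) : E 1 x y z t r s n u v w d := by
  subst hd hw hv hu hn hs hr
  constructor <;> ring

/-- the points with `p = 1` -/
theorem E.of_p {x y z t r s n u v w d : ℂ} (h : E 1 x y z t r s n u v w d) :
    r = x * y - z * t ∧ s = r * t - x ^ 2 ∧ n = s * t - y ^ 2 ∧ u = z * y - x * s ∧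
      v = z * x - r * y ∧ w = r * s - z ^ 2 ∧ d = x * u + y * v + t * w :=
  ⟨by linear_combination h.e2, by linear_combination h.e3, by linear_combination h.e1,
    by linear_combination h.e4, by linear_combination h.e5, by linear_combination h.e6,
    by linear_combination -h.e21⟩

/-- the points with `t = 1` -/
theorem E_t (p x y z r s n u v w d : ℂ) (hs : s = p * n + y ^ 2) (hr : r = p * s + x ^ 2)
    (hz : z = x * y - p * r) (hd : d = n * s - r ^ 2) (hu : u = -(x * n + y * r))
    (hv : v = -(x * r + y * s)) (hw : w = p * d - x * u - y * v) :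
    E p x y z 1 r s n u v w d := by
  subst hw hv hu hd hz hr hs
  constructor <;> ring

/-- the points with `t = 1` -/
theorem E.of_t {p x y z r s n u v w d : ℂ} (h : E p x y z 1 r s n u v w d) :
    s = p * n + y ^ 2 ∧ r = p * s + x ^ 2 ∧ z = x * y - p * r ∧ d = n * s - r ^ 2 ∧
      u = -(x * n + y * r) ∧ v = -(x * r + y * s) ∧ w = p * d - x * u - y * v :=
  ⟨by linear_combination -h.e1, by linear_combination -h.e3, by linear_combination h.e2,
    by linear_combination h.e12, by linear_combination h.e19, by linear_combination h.e20,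
    by linear_combination h.e21⟩

/-- the equation of the chart `n = 1` -/
def G (A B S r : ℂ) : ℂ := r ^ 4 + 2 * A * r ^ 2 + (2 * B - 1) * r + A ^ 2 - S

/-- the points with `n = 1` -/
theorem E_n (t y u d r p x z s v w : ℂ) (h : G (d * t) (y * u) (d * y ^ 2 - t * u ^ 2) r = 0)
    (hs : s = d * t + r ^ 2) (hp : p = s * t - y ^ 2) (hz : z = -(s * r + y * u))
    (hx : x = -(y * r + t * u)) (hv : v = r * u - d * y) (hw : w = d * s + u ^ 2) :
    E p x y z t r s 1 u v w d := by
  unfold G at h
  subst hw hv hx hz hp hs
  constructor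
  · ring
  · ring
  · linear_combination t * h
  · ring
  · linear_combination (-y) * h
  · linear_combination (t * d + r ^ 2) * h
  · linear_combination (-d) * h
  · ring
  · ring
  · ring
  · ring
  · ring
  · linear_combination (-1) * h
  · linear_combination (-r) * h
  · linear_combination (-u) * h
  · ring
  · ring
  · ring
  · ring
  · ring
  · ring

/-- the points with `n = 1` -/
theorem E.of_n {p x y z t r s u v w d : ℂ} (h : E p x y z t r s 1 u v w d) :
    G (d * t) (y * u) (d * y ^ 2 - t * u ^ 2) r = 0 ∧ s = d * t + r ^ 2 ∧ p = s * t - y ^ 2 ∧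
      z = -(s * r + y * u) ∧ x = -(y * r + t * u) ∧ v = r * u - d * y ∧ w = d * s + u ^ 2 := by
  have hs : s = d * t + r ^ 2 := by linear_combination -h.e12
  have hp : p = s * t - y ^ 2 := by linear_combination h.e1
  have hz : z = -(s * r + y * u) := by linear_combination h.e16
  have hx : x = -(y * r + t * u) := by linear_combination h.e19
  have hv : v = r * u - d * y := by linear_combination h.e11
  have hw : w = d * s + u ^ 2 := by linear_combination -h.e10
  refine ⟨?_, hs, hp, hz, hx, hv, hw⟩
  have h13 := h.e13
  rw [hz, hx, hp, hs] at h13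
  unfold G
  linear_combination -h13

/-- points outside the charts `p = 1` and `t = 1` -/
theorem E.pt {x y z r s n u v w d : ℂ} (h : E 0 x y z 0 r s n u v w d) : x = 0 ∧ y = 0 := by
  constructor
  · have := h.e3
    have h2 : x ^ 2 = 0 := by linear_combination this
    exact pow_eq_zero_iff (two_ne_zero) |>.1 h2
  · have := h.e1
    have h2 : y ^ 2 = 0 := by linear_combination this
    exact pow_eq_zero_iff (two_ne_zero) |>.1 h2

/-- points outside the charts `p = 1`, `t = 1`, `n = 1` -/
theorem E.ptn {x y z r s u v w d : ℂ} (h : E 0 x y z 0 r s 0 u v w d) :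
    x = 0 ∧ y = 0 ∧ z = 0 ∧ r = 0 ∧ s = 0 ∧ u = 0 ∧ v = 0 := by
  obtain ⟨hx, hy⟩ := h.pt
  subst hx hy
  have sq : ∀ a : ℂ, a ^ 2 = 0 → a = 0 := fun a ha => (pow_eq_zero_iff two_ne_zero).1 ha
  have hr : r = 0 := sq _ (by linear_combination h.e12)
  subst hr
  have hs : s = 0 := sq _ (by linear_combination h.e17)
  subst hs
  refine ⟨rfl, rfl, sq _ (by linear_combination h.e6), rfl, rfl, sq _ (by linear_combination h.e10),
    sq _ (by linear_combination h.e7)⟩

/-- the cells of the four isolated fixed points -/
theorem E.cell {x y z r s u v w d : ℂ} (h : E 0 x y z 0 r s 1 u v w d) : r ^ 4 = r := by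
  obtain ⟨hx, hy⟩ := h.pt
  subst hx hy
  have := h.of_n.1
  unfold G at this
  linear_combination this

end Pool.Agent.K1H15.C4
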