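import Pool.Agent.Y209.HB.Tools

/-! Attaching open acyclic sets, and punctured vector spaces. -/

set_option autoImplicit false

namespace Pool.Agent.K1H15.C4

open Pool.Agent.Y209.HB Finsupp

universe u v

variable {X : Type u} [TopologicalSpace X] {Y : Type v} [TopologicalSpace Y]

/-- the rational homology of the subset `O` in degree `n` has dimension `d` -/
def DimO (O : Set X) (n d : ℕ) : Prop :=
  ∃ z : Fin d → (Sing X n →₀ ℚ), (∀ i, z i ∈ sp O n ∧ z i ∈ Cyc X n) ∧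
    (∀ w ∈ sp O n, w ∈ Cyc X n → ∃ c : Fin d → ℚ, w - ∑ i, c i • z i ∈ Bd O n) ∧
    (∀ c : Fin d → ℚ, ∑ i, c i • z i ∈ Bd O n → c = 0)

theorem DimO_zero {O : Set X} {n : ℕ} (h : AcO O n) : DimO O n 0 := by
  refine ⟨fun i => i.elim0, fun i => i.elim0, ?_, ?_⟩
  · intro w hw hc
    refine ⟨fun i => i.elim0, ?_⟩
    simpa using h w hw hc
  · intro c _
    exact Subsingleton.elim _ _

theorem attach_inj {O U T : Set X} (hU : IsOpen U) (hT : IsOpen T)
    (hUT : ∀ x ∈ O, x ∈ U ∨ x ∈ T) (hUO : U ⊆ O) (hTO : T ⊆ O) {n : ℕ} (aS : AcO (U ∩ T) n)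
    {z : Sing X n →₀ ℚ} (hz : z ∈ sp U n) (hc : z ∈ Cyc X n) (h : z ∈ Bd O n) : z ∈ Bd U n := by
  obtain ⟨d, hd, hdc, h1, _⟩ := inj_on hU hT hUT hUO hTO hz (Submodule.zero_mem _) hc
    (Submodule.zero_mem _) (by rwa [add_zero])
  have h2 := Bd_mono Set.inter_subset_left _ (aS d hd hdc)
  have := Submodule.add_mem _ h1 h2
  rwa [sub_add_cancel] at this

/-- attaching an acyclic open set along a set without homology in the two relevant degrees -/
theorem attach_same {O U T : Set X} (hU : IsOpen U) (hT : IsOpen T)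
    (hUT : ∀ x ∈ O, x ∈ U ∨ x ∈ T) (hUO : U ⊆ O) (hTO : T ⊆ O) {n d : ℕ} (aT : AcO T (n + 1))
    (aS : AcO (U ∩ T) (n + 1))
    (h : ∀ d ∈ sp (U ∩ T) n, d ∈ Cyc X n → (n = 0 → ep X n d = 0) → d ∈ Bd (U ∩ T) n)
    (hD : DimO U (n + 1) d) : DimO O (n + 1) d := by
  obtain ⟨z, hz, h1, h2⟩ := hD
  refine ⟨z, fun i => ⟨sp_mono hUO _ (hz i).1, (hz i).2⟩, ?_, ?_⟩
  · intro w hw hc
    obtain ⟨u, hu, v, hv, a1, a2, a3⟩ := split_on hU hT hUT hUO hTO hw hc
    obtain ⟨e, he, a4⟩ := h (bdry X n u) a2 (bdry_mem_Cyc u) (by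
      rintro rfl
      exact ep_bdry u)
    have b1 : u - e ∈ sp U (n + 1) :=
      Submodule.sub_mem _ hu (sp_mono Set.inter_subset_left _ he)
    have b2 : u - e ∈ Cyc X (n + 1) := by
      apply mem_Cyc_of_bdry
      rw [map_sub, a4, sub_self]
    have b3 : v + e ∈ Bd T (n + 1) := by
      apply aT
      · exact Submodule.add_mem _ hv (sp_mono Set.inter_subset_right _ he)
      · apply mem_Cyc_of_bdry
        rw [map_add, a4, add_comm]
        exact a3
    obtain ⟨c, hc'⟩ := h1 _ b1 b2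
    refine ⟨c, ?_⟩
    have b4 := Submodule.add_mem _ a1 (Submodule.add_mem _ (Bd_mono hUO _ hc')
      (Bd_mono hTO _ b3))
    have b5 : w - (u + v) + (u - e - ∑ i, c i • z i + (v + e)) = w - ∑ i, c i • z i := by abel
    rwa [b5] at b4
  · intro c hc
    apply h2
    refine attach_inj hU hT hUT hUO hTO aS ?_ ?_ hc
    · exact Submodule.sum_mem _ fun i _ => Submodule.smul_mem _ _ (hz i).1
    · exact Submodule.sum_mem _ fun i _ => Submodule.smul_mem _ _ (hz i).2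

/-- attaching an acyclic open set along a set with one class, which is killed -/
theorem attach_add {O U T : Set X} (hU : IsOpen U) (hT : IsOpen T)
    (hUT : ∀ x ∈ O, x ∈ U ∨ x ∈ T) (hUO : U ⊆ O) (hTO : T ⊆ O) {n d : ℕ} (aU : AcO U n)
    (aT : AcO T n) (aT' : AcO T (n + 1)) (aS : AcO (U ∩ T) (n + 1))
    {g : Sing X n →₀ ℚ} (hg : g ∈ sp (U ∩ T) n) (hgc : g ∈ Cyc X n) (hg0 : g ∉ Bd (U ∩ T) n)
    (hg1 : ∀ d ∈ sp (U ∩ T) n, d ∈ Cyc X n → ∃ k : ℚ, d - k • g ∈ Bd (U ∩ T) n)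
    (hD : DimO U (n + 1) d) : DimO O (n + 1) (d + 1) := by
  obtain ⟨z, hz, h1, h2⟩ := hD
  obtain ⟨a, ha, ha1⟩ := aU g (sp_mono Set.inter_subset_left _ hg) hgc
  obtain ⟨b, hb, hb1⟩ := aT g (sp_mono Set.inter_subset_right _ hg) hgc
  refine ⟨Fin.cons (a - b) z, ?_, ?_, ?_⟩
  · intro i
    refine Fin.cases ?_ ?_ i
    · refine ⟨Submodule.sub_mem _ (sp_mono hUO _ ha) (sp_mono hTO _ hb), ?_⟩
      apply mem_Cyc_of_bdry
      rw [Fin.cons_zero, map_sub, ha1, hb1, sub_self]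
    · intro j
      rw [Fin.cons_succ]
      exact ⟨sp_mono hUO _ (hz j).1, (hz j).2⟩
  · intro w hw hc
    obtain ⟨u, hu, v, hv, a1, a2, a3⟩ := split_on hU hT hUT hUO hTO hw hc
    obtain ⟨k, e, he, a4⟩ := hg1 (bdry X n u) a2 (bdry_mem_Cyc u)
    have b1 : u - k • a - e ∈ sp U (n + 1) :=
      Submodule.sub_mem _ (Submodule.sub_mem _ hu (Submodule.smul_mem _ _ ha))
        (sp_mono Set.inter_subset_left _ he)
    have b2 : u - k • a - e ∈ Cyc X (n + 1) := by
      apply mem_Cyc_of_bdry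
      rw [map_sub, map_sub, map_smul, a4, ha1, sub_self]
    have b3 : v + k • b + e ∈ Bd T (n + 1) := by
      apply aT'
      · exact Submodule.add_mem _ (Submodule.add_mem _ hv (Submodule.smul_mem _ _ hb))
          (sp_mono Set.inter_subset_right _ he)
      · apply mem_Cyc_of_bdry
        rw [map_add, map_add, map_smul, a4, hb1]
        have e1 : bdry X n v = - bdry X n u := by rw [eq_neg_iff_add_eq_zero, add_comm]; exact a3
        rw [e1]
        abel
    obtain ⟨c, hc'⟩ := h1 _ b1 b2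
    refine ⟨Fin.cons k c, ?_⟩
    have b4 := Submodule.add_mem _ a1 (Submodule.add_mem _ (Bd_mono hUO _ hc')
      (Bd_mono hTO _ b3))
    rw [Fin.sum_univ_succ]
    simp only [Fin.cons_zero, Fin.cons_succ]
    have b5 : w - (u + v) + (u - k • a - e - ∑ i, c i • z i + (v + k • b + e)) =
        w - (k • (a - b) + ∑ i, c i • z i) := by
      rw [smul_sub]
      abel
    rwa [b5] at b4
  · intro c hc
    rw [Fin.sum_univ_succ] at hc
    simp only [Fin.cons_zero, Fin.cons_succ] at hc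
    set s := ∑ i : Fin d, c i.succ • z i with hs
    have hsU : s ∈ sp U (n + 1) :=
      Submodule.sum_mem _ fun i _ => Submodule.smul_mem _ _ (hz i).1
    have hsC : s ∈ Cyc X (n + 1) :=
      Submodule.sum_mem _ fun i _ => Submodule.smul_mem _ _ (hz i).2
    have e1 : c 0 • (a - b) + s = (c 0 • a + s) + (-(c 0 • b)) := by
      rw [smul_sub]
      abel
    rw [e1] at hc
    have e2 := conn_on hU hT hUT hUO hTO
      (Submodule.add_mem _ (Submodule.smul_mem _ _ ha) hsU)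
      (Submodule.neg_mem _ (Submodule.smul_mem _ _ hb)) hc
    rw [map_add, map_smul, ha1, bdry_of_mem_Cyc hsC, add_zero] at e2
    have c0 : c 0 = 0 := by
      by_contra hne
      apply hg0
      have := Submodule.smul_mem _ (c 0)⁻¹ e2
      rwa [smul_smul, inv_mul_cancel₀ hne, one_smul] at this
    rw [c0, zero_smul, zero_smul, neg_zero, add_zero, zero_add] at hc
    have e3 := h2 _ (attach_inj hU hT hUT hUO hTO aS hsU hsC hc)
    funext i
    refine Fin.cases c0 ?_ i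
    intro j
    exact congrFun e3 j

/-- rational homology spheres -/
structure Sph (X : Type u) [TopologicalSpace X] (n : ℕ) : Prop where
  ac : ∀ k, k + 1 ≠ n → Ac X (k + 1)
  cn : Cn X
  gen : ∃ g ∈ Cyc X n, g ∉ Bdy X n ∧ ∀ z ∈ Cyc X n, ∃ k : ℚ, z - k • g ∈ Bdy X n

theorem Sph.of_HE {f : C(X, Y)} (hf : HE f) {n : ℕ} (h : Sph Y n) : Sph X n := by
  refine ⟨fun k hk => Ac_of_HE hf (h.ac k hk), Cn_of_HE hf h.cn, ?_⟩
  obtain ⟨g, hg, hg0, hg1⟩ := h.gen
  obtain ⟨g', hg', h1⟩ := (hf n).2 g hg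
  refine ⟨g', hg', ?_, ?_⟩
  · intro h2
    apply hg0
    have := Submodule.add_mem _ h1 (push_mem_Bdy f n g' h2)
    rwa [sub_add_cancel] at this
  · intro z hz
    obtain ⟨k, hk⟩ := hg1 _ (push_mem_Cyc f n z hz)
    refine ⟨k, (hf n).1 _ (Submodule.sub_mem _ hz (Submodule.smul_mem _ _ hg')) ?_⟩
    have := Submodule.add_mem _ hk (Submodule.smul_mem _ k h1)
    have e : push f n z - k • g + k • (g - push f n g') = push f n (z - k • g') := by
      rw [map_sub, map_smul, smul_sub]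
      abel
    rwa [e] at this

theorem Sph.of_HE' {f : C(X, Y)} (hf : HE f) {n : ℕ} (h : Sph X n) : Sph Y n := by
  refine ⟨fun k hk => Ac_of_HE' hf (h.ac k hk), Cn_of_HE' hf h.cn, ?_⟩
  obtain ⟨g, hg, hg0, hg1⟩ := h.gen
  refine ⟨push f n g, push_mem_Cyc f n g hg, fun h2 => hg0 ((hf n).1 g hg h2), ?_⟩
  intro z hz
  obtain ⟨z', hz', h1⟩ := (hf n).2 z hz
  obtain ⟨k, hk⟩ := hg1 z' hz'
  refine ⟨k, ?_⟩
  have := Submodule.add_mem _ h1 (push_mem_Bdy f n _ hk)
  have e : z - push f n z' + push f n (z' - k • g) = z - k • push f n g := by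
    rw [map_sub, map_smul]
    abel
  rwa [e] at this

theorem Sph.acO {O : Set X} {n : ℕ} (h : Sph O n) {k : ℕ} (hk : k + 1 ≠ n) : AcO O (k + 1) :=
  AcO_of_Ac (h.ac k hk)

theorem Sph.genO {O : Set X} {n : ℕ} (h : Sph O n) : ∃ g ∈ sp O n, g ∈ Cyc X n ∧ g ∉ Bd O n ∧
    ∀ z ∈ sp O n, z ∈ Cyc X n → ∃ k : ℚ, z - k • g ∈ Bd O n := by
  obtain ⟨g, hg, hg0, hg1⟩ := h.gen
  refine ⟨push (sub O) n g, push_sub_mem_sp O g, push_mem_Cyc _ n g hg,
    fun h2 => hg0 (mem_Bdy_of_push_sub h2), ?_⟩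
  intro z hz hc
  obtain ⟨z', rfl⟩ := exists_lift hz
  obtain ⟨k, hk⟩ := hg1 z' (mem_Cyc_of_push _ Subtype.val_injective hc)
  refine ⟨k, ?_⟩
  have := push_sub_mem_Bd hk
  rwa [map_sub, map_smul] at this

/-- the vanishing of the reduced homology of a sphere below the top degree -/
theorem Sph.redO {O : Set X} {n : ℕ} (h : Sph O n) {k : ℕ} (hk : k ≠ n) :
    ∀ d ∈ sp O k, d ∈ Cyc X k → (k = 0 → ep X k d = 0) → d ∈ Bd O k := by
  intro d hd hc h0
  cases k with
  | zero => exact CnO_of_Cn h.cn d hd (h0 rfl)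
  | succ k => exact h.acO hk d hd hc

/-- suspension -/
theorem Sph.susp {U T : Set X} (hU : IsOpen U) (hT : IsOpen T) (hUT : ∀ x, x ∈ U ∨ x ∈ T)
    (aU : ∀ k, AcO U (k + 1)) (cU : CnO U) (aT : ∀ k, AcO T (k + 1)) (cT : CnO T)
    {x0 : X} (hx0 : x0 ∈ U ∩ T) {n : ℕ} (h : Sph ↥(U ∩ T) (n + 1)) : Sph X (n + 2) := by
  refine ⟨?_, ?_, ?_⟩
  · intro k hk
    have h1 : AcO (Set.univ : Set X) (k + 1) := by
      refine AcO_of_cover hU hT (fun x _ => hUT x) (Set.subset_univ _) (Set.subset_univ _)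
        (aU k) (aT k) (h.redO ?_)
      omega
    intro z hz
    rw [← Bd_univ]
    exact h1 z (mem_sp_univ z) hz
  · intro z hz
    obtain ⟨u, v, rfl⟩ := mv_zero U T hUT z
    set a := push (sub U) 0 u with ha
    set b := push (sub T) 0 v with hb
    rw [← Bd_univ]
    have h1 : a - ep X 0 a • single (cs x0 0) 1 ∈ Bd U 0 := by
      apply cU
      · exact Submodule.sub_mem _ (push_sub_mem_sp _ _)
          (Submodule.smul_mem _ _ (single_mem_sp (cs_range hx0.1 0)))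
      · rw [map_sub, map_smul, ep_single, smul_eq_mul, mul_one, sub_self]
    have h2 : b + ep X 0 a • single (cs x0 0) 1 ∈ Bd T 0 := by
      apply cT
      · exact Submodule.add_mem _ (push_sub_mem_sp _ _)
          (Submodule.smul_mem _ _ (single_mem_sp (cs_range hx0.2 0)))
      · rw [map_add] at hz
        rw [map_add, map_smul, ep_single, smul_eq_mul, mul_one]
        linarith
    have h3 := Submodule.add_mem _ (Bd_mono (Set.subset_univ _) 0 h1)
      (Bd_mono (Set.subset_univ _) 0 h2)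
    have h4 : a - ep X 0 a • single (cs x0 0) 1 +
        (b + ep X 0 a • single (cs x0 0) 1) = a + b := by abel
    rwa [h4] at h3
  · obtain ⟨g, hg, hgc, hg0, hg1⟩ := h.genO
    obtain ⟨a, ha, ha1⟩ := aU n g (sp_mono Set.inter_subset_left _ hg) hgc
    obtain ⟨b, hb, hb1⟩ := aT n g (sp_mono Set.inter_subset_right _ hg) hgc
    have hab : bdry X (n + 1) a + bdry X (n + 1) (-b) = 0 := by
      rw [map_neg, ha1, hb1, add_neg_cancel]
    refine ⟨a + -b, ?_, ?_, ?_⟩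
    · apply mem_Cyc_of_bdry
      rw [map_add, hab]
    · intro h2
      have h3 := conn_univ U T hU hT hUT ha (Submodule.neg_mem _ hb) h2
      rw [ha1] at h3
      exact hg0 h3
    · intro z hz
      obtain ⟨k, hk⟩ := span_of_cover (O := Set.univ) hU hT (fun x _ => hUT x)
        (Set.subset_univ _) (Set.subset_univ _) (aU (n + 1)) (aT (n + 1)) ha
        (Submodule.neg_mem _ hb) hab (fun d hd hdc _ => by
          rw [ha1]
          exact hg1 d hd hdc) (mem_sp_univ z) hz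
      refine ⟨k, ?_⟩
      rwa [Bd_univ] at hk

/-- the punctured space -/
abbrev Pu (E : Type u) [Zero E] : Type u := {x : E // x ≠ 0}

theorem Sph_P0 : Sph (Pu ℂ) 1 := by
  refine ⟨?_, P0_Cn, gP, gP_Cyc, P0_ne, P0_span⟩
  intro k hk
  obtain ⟨k, rfl⟩ : ∃ m, k = m + 1 := ⟨k - 1, by omega⟩
  exact P0_Ac k

/-- homeomorphic punctured spaces -/
theorem Sph_equiv {E : Type u} {F : Type v} [NormedAddCommGroup E] [NormedSpace ℝ E]
    [NormedAddCommGroup F] [NormedSpace ℝ F] (e : E ≃L[ℝ] F) {n : ℕ} (h : Sph (Pu E) n) :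
    Sph (Pu F) n := by
  have hh : Pu E ≃ₜ Pu F :=
    { toFun := fun x => ⟨e x.1, fun h => x.2 (e.map_eq_zero_iff.1 h)⟩
      invFun := fun x => ⟨e.symm x.1, fun h => x.2 (e.symm.map_eq_zero_iff.1 h)⟩
      left_inv := fun x => Subtype.ext (e.symm_apply_apply x.1)
      right_inv := fun x => Subtype.ext (e.apply_symm_apply x.1)
      continuous_toFun := by fun_prop
      continuous_invFun := by fun_prop }
  exact h.of_HE' (HE_of_homeo hh ⟨hh, hh.continuous⟩ fun _ => rfl)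

/-- the punctured product with a line is a suspension -/
theorem Sph_prod {E : Type u} [NormedAddCommGroup E] [NormedSpace ℝ E] [Nontrivial E] {n : ℕ}
    (h : Sph (Pu E) (n + 1)) : Sph (Pu (ℝ × E)) (n + 2) := by
  let U : Set (Pu (ℝ × E)) := {x | x.1.2 ≠ 0 ∨ 0 < x.1.1}
  let T : Set (Pu (ℝ × E)) := {x | x.1.2 ≠ 0 ∨ x.1.1 < 0}
  have hU : IsOpen U := by
    have h1 : IsOpen {x : Pu (ℝ × E) | x.1.2 ≠ 0} :=
      isOpen_ne_fun (by fun_prop) continuous_const
    have h2 : IsOpen {x : Pu (ℝ × E) | 0 < x.1.1} :=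
      isOpen_lt continuous_const (by fun_prop)
    exact h1.union h2
  have hT : IsOpen T := by
    have h1 : IsOpen {x : Pu (ℝ × E) | x.1.2 ≠ 0} :=
      isOpen_ne_fun (by fun_prop) continuous_const
    have h2 : IsOpen {x : Pu (ℝ × E) | x.1.1 < 0} :=
      isOpen_lt (by fun_prop) continuous_const
    exact h1.union h2
  have hUT : ∀ x, x ∈ U ∨ x ∈ T := by
    intro x
    by_cases h1 : x.1.2 = 0
    · have h2 : x.1.1 ≠ 0 := fun h3 => x.2 (Prod.ext h3 h1)
      rcases lt_or_gt_of_ne h2 with h3 | h3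
      · exact Or.inr (Or.inr h3)
      · exact Or.inl (Or.inr h3)
    · exact Or.inl (Or.inl h1)
  -- contraction of the two sets
  have contr : ∀ (σ : ℝ) (_ : σ ≠ 0) (O : Set (Pu (ℝ × E)))
      (_ : ∀ x, x ∈ O ↔ x.1.2 ≠ 0 ∨ 0 < σ * x.1.1), (∀ k, AcO O (k + 1)) ∧ CnO O := by
    intro σ hσ O hO
    have hne : ∀ x ∈ O, ∀ r : unitInterval,
        (((1 - (r : ℝ)) * x.1.1 + r * σ, (1 - (r : ℝ)) • x.1.2) : ℝ × E).2 ≠ 0 ∨
        0 < σ * (((1 - (r : ℝ)) * x.1.1 + r * σ, (1 - (r : ℝ)) • x.1.2) : ℝ × E).1 := by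
      intro x hx r
      have hr0 := r.2.1
      have hr1 := r.2.2
      have hσ2 : 0 < σ * σ := mul_self_pos.2 hσ
      rcases (hO x).1 hx with h1 | h1
      · by_cases h2 : 1 - (r : ℝ) = 0
        · right
          have h3 : (r : ℝ) = 1 := by linarith
          simp only [h3]
          nlinarith
        · left
          exact smul_ne_zero h2 h1
      · right
        have h4 : σ * ((1 - (r : ℝ)) * x.1.1 + r * σ) =
            (1 - (r : ℝ)) * (σ * x.1.1) + r * (σ * σ) := by ring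
        simp only [h4]
        rcases hr0.eq_or_lt with h5 | h5
        · rw [← h5]
          simpa using h1
        · have h6 : 0 ≤ (1 - (r : ℝ)) * (σ * x.1.1) := mul_nonneg (by linarith) h1.le
          have h7 : 0 < (r : ℝ) * (σ * σ) := mul_pos h5 hσ2
          linarith
    have hne' : ∀ y : ℝ × E, (y.2 ≠ 0 ∨ 0 < σ * y.1) → y ≠ 0 := by
      rintro y hy rfl
      simp at hy
    let H : C(O × unitInterval, O) := ⟨fun p =>
      ⟨⟨((1 - (p.2 : ℝ)) * p.1.1.1.1 + p.2 * σ, (1 - (p.2 : ℝ)) • p.1.1.1.2),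
        hne' _ (hne _ p.1.2 p.2)⟩, (hO _).2 (hne _ p.1.2 p.2)⟩, by
      refine Continuous.subtype_mk (Continuous.subtype_mk ?_ _) _
      fun_prop⟩
    have hc : (⟨(σ, 0), fun h => hσ (congrArg Prod.fst h)⟩ : Pu (ℝ × E)) ∈ O := by
      rw [hO]
      right
      exact mul_self_pos.2 hσ
    have h0 : ∀ y, H (y, 0) = y := by
      intro y
      apply Subtype.ext
      apply Subtype.ext
      change ((1 - ((0 : unitInterval) : ℝ)) * y.1.1.1 + ((0 : unitInterval) : ℝ) * σ,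
        (1 - ((0 : unitInterval) : ℝ)) • y.1.1.2) = y.1.1
      simp
    have h1 : ∀ y, H (y, 1) = ⟨_, hc⟩ := by
      intro y
      apply Subtype.ext
      apply Subtype.ext
      change ((1 - ((1 : unitInterval) : ℝ)) * y.1.1.1 + ((1 : unitInterval) : ℝ) * σ,
        (1 - ((1 : unitInterval) : ℝ)) • y.1.1.2) = (σ, 0)
      simp
    exact ⟨fun n => AcO_of_Ac (Ac_of_contr H _ h0 h1 n), CnO_of_Cn (Cn_of_contr H _ h0 h1)⟩
  obtain ⟨aU, cU⟩ := contr 1 one_ne_zero U (fun x => by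
    rw [one_mul]
    exact Iff.rfl)
  obtain ⟨aT, cT⟩ := contr (-1) (by norm_num) T (fun x => by
    rw [neg_one_mul, neg_pos]
    exact Iff.rfl)
  obtain ⟨e0, he0⟩ := exists_ne (0 : E)
  have hx0 : (⟨(0, e0), fun h => he0 (congrArg Prod.snd h)⟩ : Pu (ℝ × E)) ∈ U ∩ T :=
    ⟨Or.inl he0, Or.inl he0⟩
  have hI : ∀ x, x ∈ U ∩ T ↔ x.1.2 ≠ 0 := by
    intro x
    constructor
    · rintro ⟨h1 | h1, h2 | h2⟩
      · exact h1
      · exact h1
      · exact h2
      · exact absurd h1 (lt_asymm h2)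
    · intro h1
      exact ⟨Or.inl h1, Or.inl h1⟩
  refine Sph.susp hU hT hUT aU cU aT cT hx0 ?_
  let f : C(↥(U ∩ T), Pu E) := ⟨fun x => ⟨x.1.1.2, (hI x.1).1 x.2⟩, by fun_prop⟩
  let g : C(Pu E, ↥(U ∩ T)) := ⟨fun y => ⟨⟨(0, y.1), fun h => y.2 (congrArg Prod.snd h)⟩,
    (hI _).2 y.2⟩, by fun_prop⟩
  let H : C(↥(U ∩ T) × unitInterval, ↥(U ∩ T)) := ⟨fun p =>
    ⟨⟨((1 - (p.2 : ℝ)) * p.1.1.1.1, p.1.1.1.2), fun h => (hI p.1.1).1 p.1.2
      (congrArg Prod.snd h)⟩, (hI _).2 ((hI p.1.1).1 p.1.2)⟩, by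
      refine Continuous.subtype_mk (Continuous.subtype_mk ?_ _) _
      fun_prop⟩
  refine h.of_HE (f := f) (HE_of_homotopyEquiv f g H ⟨fun p => p.1, by fun_prop⟩ ?_ ?_
    (fun _ => rfl) (fun _ => rfl))
  · intro x
    apply Subtype.ext
    apply Subtype.ext
    change ((1 - ((0 : unitInterval) : ℝ)) * x.1.1.1, x.1.1.2) = x.1.1
    simp
  · intro x
    apply Subtype.ext
    apply Subtype.ext
    change ((1 - ((1 : unitInterval) : ℝ)) * x.1.1.1, x.1.1.2) = (0, x.1.1.2)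
    simp

/-- punctured vector spaces are homology spheres -/
theorem Sph_punctured (n : ℕ) : ∀ (F : Type) [NormedAddCommGroup F] [NormedSpace ℝ F]
    [FiniteDimensional ℝ F], Module.finrank ℝ F = n + 2 → Sph (Pu F) (n + 1) := by
  induction n with
  | zero =>
    intro F _ _ _ hF
    exact Sph_equiv (ContinuousLinearEquiv.ofFinrankEq
      (by rw [Complex.finrank_real_complex, hF])) Sph_P0
  | succ n ih =>
    intro F _ _ _ hF
    have h1 := ih (Fin (n + 2) → ℝ) (by simp)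
    refine Sph_equiv (ContinuousLinearEquiv.ofFinrankEq (𝕜 := ℝ) (E := ℝ × (Fin (n + 2) → ℝ))
      ?_) (Sph_prod h1)
    rw [hF]
    simp
    omega

end Pool.Agent.K1H15.C4
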