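import Pool.Agent.K1H15.C4.Cpt
import Pool.Agent.K1H15.C4.Top

/-! The homology of the variety. -/

set_option autoImplicit false

namespace Pool.Agent.K1H15.C4

open Pool.Agent.Y209.HB

/-- the chart domains are acyclic -/
theorem src_acyclic (A : Ch) (h : ∀ c ∈ A.D, ∀ r : ℝ, 0 ≤ r → r ≤ 1 → (r : ℂ) • c ∈ A.D)
    (h0 : (0 : Fin 4 → ℂ) ∈ A.D) (k : ℕ) : AcO A.src (k + 1) := by
  have h1 := (contr_star A.D h0 (fun x hx r hr0 hr1 => by
    have := h x hx r hr0 hr1
    rwa [Complex.coe_smul] at this)).1 k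
  let φ : C(↥A.D, V) := ⟨fun c => A.par c.1,
    (continuousOn_iff_continuous_domRestrict.1 A.par_continuousOn)⟩
  let ψ : C(↥A.src, ↥A.D) := ⟨fun P => ⟨A.co P.1, A.co_mem P.2⟩,
    Continuous.subtype_mk (continuousOn_iff_continuous_domRestrict.1 A.co_continuousOn) _⟩
  exact AcO_of_sec φ (fun d => A.par_mem d.2) ψ (fun x => A.par_co x.2) h1

/-- the part of a chart domain where the first coordinates do not all vanish -/
def Sm (A : Ch) (m : ℕ) : Set V := {P | P ∈ A.src ∧ ∃ i : Fin 4, (i : ℕ) < m + 1 ∧ A.co P i ≠ 0}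

theorem Sm_sph (A : Ch) (m : ℕ) (hm : m + 1 ≤ 4)
    (hD : ∀ c ∈ A.D, ∀ c' : Fin 4 → ℂ, (∀ i, ‖c' i‖ ≤ ‖c i‖) → c' ∈ A.D)
    (hD' : ∀ c : Fin 4 → ℂ, (∀ i : Fin 4, m + 1 ≤ (i : ℕ) → c i = 0) → c ∈ A.D) :
    Sph ↥(Sm A m) (2 * m + 1) := by
  classical
  have h1 : Sph (Pu (Fin (m + 1) → ℂ)) (2 * m + 1) := by
    apply Sph_punctured
    rw [Module.finrank_pi_fintype]
    simp [Complex.finrank_real_complex]
    omega
  let ι : (Fin (m + 1) → ℂ) → Fin 4 → ℂ := fun v k => if h : (k : ℕ) < m + 1 then v ⟨k, h⟩ else 0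
  have hι : Continuous ι := by
    refine continuous_pi fun k => ?_
    by_cases h : (k : ℕ) < m + 1
    · simp only [ι, dif_pos h]
      fun_prop
    · simp only [ι, dif_neg h]
      fun_prop
  let σ : (Fin 4 → ℂ) → unitInterval → Fin 4 → ℂ := fun c τ k =>
    if (k : ℕ) < m + 1 then c k else ((1 - (τ : ℝ) : ℝ) : ℂ) * c k
  have hσ : Continuous fun p : (Fin 4 → ℂ) × unitInterval => σ p.1 p.2 := by
    refine continuous_pi fun k => ?_
    by_cases h : (k : ℕ) < m + 1
    · simp only [σ, if_pos h]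
      fun_prop
    · simp only [σ, if_neg h]
      fun_prop
  have hιD : ∀ v, ι v ∈ A.D := by
    intro v
    apply hD'
    intro i hi
    exact dif_neg (by omega)
  have hσD : ∀ c ∈ A.D, ∀ τ, σ c τ ∈ A.D := by
    intro c hc τ
    refine hD c hc _ fun i => ?_
    by_cases h : (i : ℕ) < m + 1
    · simp only [σ, if_pos h]
      exact le_rfl
    · simp only [σ, if_neg h]
      rw [norm_mul, Complex.norm_real, Real.norm_of_nonneg (by linarith [τ.2.2])]
      exact mul_le_of_le_one_left (norm_nonneg _) (by linarith [τ.2.1])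
  have cco : Continuous fun P : ↥(Sm A m) => A.co P.1 :=
    continuousOn_iff_continuous_domRestrict.1 (A.co_continuousOn.mono fun P hP => hP.1)
  let f : C(↥(Sm A m), Pu (Fin (m + 1) → ℂ)) := ⟨fun P => ⟨fun i => A.co P.1 (Fin.castLE hm i), by
    obtain ⟨i, hi, h⟩ := P.2.2
    intro h2
    apply h
    exact congrFun h2 ⟨i, hi⟩⟩, by
    refine Continuous.subtype_mk ?_ _
    exact (continuous_pi fun i => continuous_apply (Fin.castLE hm i) :
      Continuous fun (c : Fin 4 → ℂ) (i : Fin (m + 1)) => c (Fin.castLE hm i)).comp cco⟩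
  let g : C(Pu (Fin (m + 1) → ℂ), ↥(Sm A m)) := ⟨fun v => ⟨A.par (ι v.1), A.par_mem (hιD _), by
    obtain ⟨i, hi⟩ := Function.ne_iff.1 v.2
    refine ⟨Fin.castLE hm i, i.2, ?_⟩
    rw [A.co_par (hιD _)]
    simp only [ι]
    rw [dif_pos (by exact i.2)]
    exact hi⟩, by
    refine Continuous.subtype_mk ?_ _
    exact A.par_continuousOn.comp_continuous (hι.comp continuous_subtype_val) fun v => hιD _⟩
  let H : C(↥(Sm A m) × unitInterval, ↥(Sm A m)) := ⟨fun p =>
    ⟨A.par (σ (A.co p.1.1) p.2), A.par_mem (hσD _ (A.co_mem p.1.2.1) _), by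
      obtain ⟨i, hi, h⟩ := p.1.2.2
      refine ⟨i, hi, ?_⟩
      rw [A.co_par (hσD _ (A.co_mem p.1.2.1) _)]
      simp only [σ, if_pos hi]
      exact h⟩, by
    refine Continuous.subtype_mk ?_ _
    refine A.par_continuousOn.comp_continuous ?_ fun p => hσD _ (A.co_mem p.1.2.1) _
    exact hσ.comp ((cco.comp continuous_fst).prodMk continuous_snd)⟩
  refine h1.of_HE (f := f) (HE_of_homotopyEquiv f g H ⟨fun p => p.1, by fun_prop⟩ ?_ ?_
    (fun _ => rfl) ?_)
  · intro P
    apply Subtype.ext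
    change A.par (σ (A.co P.1) 0) = P.1
    have e : σ (A.co P.1) 0 = A.co P.1 := by
      funext k
      simp [σ]
    rw [e, A.par_co P.2.1]
  · intro P
    apply Subtype.ext
    change A.par (σ (A.co P.1) 1) = A.par (ι fun i => A.co P.1 (Fin.castLE hm i))
    congr 1
    funext k
    by_cases h : (k : ℕ) < m + 1
    · simp only [σ, ι, if_pos h, dif_pos h]
      rfl
    · simp [σ, ι]
  · intro v
    apply Subtype.ext
    funext i
    change v.1 i = A.co (A.par (ι v.1)) (Fin.castLE hm i)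
    rw [A.co_par (hιD _)]
    simp only [ι]
    rw [dif_pos (by exact i.2)]
    rfl

/-- the homology in degrees two, three, four -/
structure St (O : Set V) (a b : ℕ) : Prop where
  h2 : DimO O 2 a
  h3 : AcO O 3
  h4 : DimO O 4 b

theorem ch_zero (i : Ix) : (0 : Fin 4 → ℂ) ∈ (ch i).D := by
  cases i with
  | p => exact trivial
  | t => exact trivial
  | w => exact trivial
  | d => exact trivial
  | T i =>
    have hp : 0 < (RDi i).ε / 2 := by
      have := (RDi i).hε
      linarith
    refine ⟨?_, ?_, ?_, ?_⟩ <;> simpa using hp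

theorem ch_ac (i : Ix) (k : ℕ) : AcO (ch i).src (k + 1) :=
  src_acyclic _ (ch_star i) (ch_zero i) k

/-- the first step -/
theorem St_one : St (UU 0 ∪ UU 4) 1 0 := by
  have hS : UU 0 ∩ UU 4 = Sm cht 0 := by
    ext P
    constructor
    · rintro ⟨h0, h4⟩
      exact ⟨mem_cht.2 h4, 0, by simp, (mem_UU_iff h4).1 h0⟩
    · rintro ⟨h4, i, hi, h⟩
      have hi' : i = 0 := by
        apply Fin.ext
        change (i : ℕ) = 0
        omega
      subst hi'
      rw [mem_cht] at h4
      exact ⟨(mem_UU_iff h4).2 h, h4⟩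
  have hsph : Sph ↥(UU 0 ∩ UU 4 : Set V) 1 := by
    rw [hS]
    exact Sm_sph cht 0 (by norm_num) (fun _ _ _ _ => trivial) fun _ _ => trivial
  have e0 : chp.src = UU 0 := Set.ext fun _ => mem_chp
  have e4 : cht.src = UU 4 := Set.ext fun _ => mem_cht
  have a0 : ∀ k, AcO (UU 0 : Set V) (k + 1) := fun k => by
    rw [← e0]; exact ch_ac .p k
  have a4 : ∀ k, AcO (UU 4 : Set V) (k + 1) := fun k => by
    rw [← e4]; exact ch_ac .t k
  have hc : ∀ x ∈ (UU 0 ∪ UU 4 : Set V), x ∈ UU 0 ∨ x ∈ UU 4 := fun _ h => h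
  obtain ⟨g, hg, hgc, hg0, hg1⟩ := hsph.genO
  refine ⟨?_, ?_, ?_⟩
  · exact attach_add (UU_open 0) (UU_open 4) hc Set.subset_union_left Set.subset_union_right
      (a0 0) (a4 0) (a4 1) (hsph.acO (by norm_num)) hg hgc hg0 hg1 (DimO_zero (a0 1))
  · exact AcO_of_cover (UU_open 0) (UU_open 4) hc Set.subset_union_left Set.subset_union_right
      (a0 2) (a4 2) (hsph.redO (by norm_num))
  · exact DimO_zero (AcO_of_cover (UU_open 0) (UU_open 4) hc Set.subset_union_left
      Set.subset_union_right (a0 3) (a4 3) (hsph.redO (by norm_num)))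

/-- the sets with some of the cells -/
def OT (k : ℕ) : Set V := {P | (P ∈ UU 0 ∨ P ∈ UU 4) ∨ ∃ i : Fin 4, (i : ℕ) < k ∧ P ∈ (chT i).src}

theorem OT_open (k : ℕ) : IsOpen (OT k) := by
  have h1 : OT k = (UU 0 ∪ UU 4) ∪ ⋃ i : {i : Fin 4 // (i : ℕ) < k}, (chT i.1).src := by
    ext P
    constructor
    · rintro (h | ⟨i, hi, h⟩)
      · exact Or.inl h
      · exact Or.inr (Set.mem_iUnion.2 ⟨⟨i, hi⟩, h⟩)
    · rintro (h | h)
      · exact Or.inl h
      · obtain ⟨i, hi⟩ := Set.mem_iUnion.1 h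
        exact Or.inr ⟨i.1, i.2, hi⟩
  rw [h1]
  exact ((UU_open 0).union (UU_open 4)).union (isOpen_iUnion fun i => (chT i.1).src_open)

theorem T_disj {i j : Fin 4} {P : V} (hi : P ∈ (chT i).src) (hj : P ∈ (chT j).src) : i = j := by
  by_contra hij
  have h1 : ‖rat 7 P 5 - rt i‖ < (RDi i).δ := hi.2.2
  have h2 : ‖rat 7 P 5 - rt j‖ < (RDi j).δ := hj.2.2
  have h3 := (RDi i).hδ'
  have h4 := (RDi j).hδ'
  have h5 := sep (rt_root i) (rt_root j) (fun h => hij (rt_inj h))
  have h6 : ‖rt i - rt j‖ ≤ ‖rat 7 P 5 - rt i‖ + ‖rat 7 P 5 - rt j‖ := by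
    have e : rt i - rt j = (rat 7 P 5 - rt j) - (rat 7 P 5 - rt i) := by ring
    rw [e, add_comm]
    exact norm_sub_le _ _
  linarith

/-- attaching the cell of an isolated fixed point -/
theorem St_T (k : ℕ) (hk : k < 4) (h : St (OT k) 1 k) : St (OT (k + 1)) 1 (k + 1) := by
  set T : Set V := (chT ⟨k, hk⟩).src with hTdef
  have hS : OT k ∩ T = Sm (chT ⟨k, hk⟩) 1 := by
    ext P
    constructor
    · rintro ⟨h1, h2⟩
      refine ⟨h2, ?_⟩
      have h7 : P ∈ UU 7 := h2.1
      by_contra hne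
      push Not at hne
      have ht : rat 7 P 4 = 0 := hne 0 (by norm_num)
      have hy : rat 7 P 2 = 0 := hne 1 (by norm_num)
      rcases h1 with (h1 | h1) | ⟨i, hi, h1⟩
      · rw [mem_UU_iff h7] at h1
        apply h1
        have := (rat_Eqs h7).e1
        rw [rat_self h7, ht, hy] at this
        linear_combination this
      · rw [mem_UU_iff h7] at h1
        exact h1 ht
      · have := T_disj h1 h2
        rw [this] at hi
        exact lt_irrefl _ hi
    · rintro ⟨h2, i, hi, h3⟩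
      refine ⟨?_, h2⟩
      have h7 : P ∈ UU 7 := h2.1
      left
      by_contra hne
      push Not at hne
      obtain ⟨h0, h4⟩ := hne
      rw [mem_UU_iff h7, not_not] at h0 h4
      have hE := rat_Eqs h7
      unfold Eqs at hE
      rw [h0, h4] at hE
      apply h3
      have hi' : i = 0 ∨ i = 1 := by
        rcases i with ⟨i, hi4⟩
        have hi2 : i < 1 + 1 := hi
        rcases Nat.lt_succ_iff_lt_or_eq.1 hi2 with h | h
        · left
          apply Fin.ext
          change i = 0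
          omega
        · right
          apply Fin.ext
          change i = 1
          omega
      rcases hi' with rfl | rfl
      · exact h4
      · exact hE.pt.2
  have hsph : Sph ↥(OT k ∩ T) 3 := by
    rw [hS]
    refine Sm_sph (chT ⟨k, hk⟩) 1 (by norm_num) (fun c hc c' h' => Th_scale hc h') ?_
    intro c hc
    have h2 : c 2 = 0 := hc 2 (by norm_num)
    have h3 : c 3 = 0 := hc 3 (by norm_num)
    have hp : 0 < (RDi ⟨k, hk⟩).ε / 2 := by
      have := (RDi ⟨k, hk⟩).hε
      linarith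
    refine ⟨?_, ?_, ?_, ?_⟩
    · rw [h3, zero_mul, norm_zero]
      exact hp
    · rw [h2, mul_zero, norm_zero]
      exact hp
    · rw [h3, zero_mul, norm_zero]
      exact hp
    · rw [h2, zero_pow two_ne_zero, mul_zero, norm_zero]
      exact hp
  have aT : ∀ n, AcO T (n + 1) := fun n => ch_ac (.T ⟨k, hk⟩) n
  have oT : IsOpen T := (chT ⟨k, hk⟩).src_open
  have hc : ∀ x ∈ OT (k + 1), x ∈ OT k ∨ x ∈ T := by
    rintro x (hx | ⟨i, hi, hx⟩)
    · exact Or.inl (Or.inl hx)
    · by_cases hik : (i : ℕ) < k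
      · exact Or.inl (Or.inr ⟨i, hik, hx⟩)
      · right
        have : i = ⟨k, hk⟩ := by
          apply Fin.ext
          change (i : ℕ) = k
          omega
        rw [hTdef, ← this]
        exact hx
  have s1 : OT k ⊆ OT (k + 1) := by
    rintro x (hx | ⟨i, hi, hx⟩)
    · exact Or.inl hx
    · exact Or.inr ⟨i, by omega, hx⟩
  have s2 : T ⊆ OT (k + 1) := fun x hx => Or.inr ⟨⟨k, hk⟩, Nat.lt_succ_self k, hx⟩
  obtain ⟨g, hg, hgc, hg0, hg1⟩ := hsph.genO
  refine ⟨?_, ?_, ?_⟩
  · exact attach_same (OT_open k) oT hc s1 s2 (aT 1) (hsph.acO (by norm_num))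
      (hsph.redO (by norm_num)) h.h2
  · exact AcO_of_cover (OT_open k) oT hc s1 s2 h.h3 (aT 2) (hsph.redO (by norm_num))
  · exact attach_add (OT_open k) oT hc s1 s2 h.h3 (aT 2) (aT 3) (hsph.acO (by norm_num))
      hg hgc hg0 hg1 h.h4

theorem St_OT4 : St (OT 4) 1 4 := by
  have h0 : St (OT 0) 1 0 := by
    have e : OT 0 = UU 0 ∪ UU 4 := by
      ext P
      constructor
      · rintro (h | ⟨i, hi, h⟩)
        · exact h
        · exact absurd hi (Nat.not_lt_zero _)
      · intro h
        exact Or.inl h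
    rw [e]
    exact St_one
  exact St_T 3 (by norm_num) (St_T 2 (by norm_num) (St_T 1 (by norm_num)
    (St_T 0 (by norm_num) h0)))

/-- attaching along spheres of high dimension -/
theorem St_high {O U T : Set V} (hU : IsOpen U) (hT : IsOpen T)
    (hUT : ∀ x ∈ O, x ∈ U ∨ x ∈ T) (hUO : U ⊆ O) (hTO : T ⊆ O) (aT : ∀ n, AcO T (n + 1))
    {a b N : ℕ} (hN : 5 ≤ N) (hS : Sph ↥(U ∩ T) N) (h : St U a b) : St O a b := by
  refine ⟨?_, ?_, ?_⟩
  · exact attach_same hU hT hUT hUO hTO (aT 1) (hS.acO (by omega)) (hS.redO (by omega)) h.h2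
  · exact AcO_of_cover hU hT hUT hUO hTO h.h3 (aT 2) (hS.redO (by omega))
  · exact attach_same hU hT hUT hUO hTO (aT 3) (hS.acO (by omega)) (hS.redO (by omega)) h.h4

theorem mem_OT4 {P : V} : P ∈ OT 4 ↔ P ∈ UU 0 ∨ P ∈ UU 4 ∨ P ∈ UU 7 := by
  constructor
  · rintro ((h | h) | ⟨i, _, h⟩)
    · exact Or.inl h
    · exact Or.inr (Or.inl h)
    · exact Or.inr (Or.inr h.1)
  · intro h
    by_cases h0 : P ∈ UU 0
    · exact Or.inl (Or.inl h0)
    by_cases h4 : P ∈ UU 4
    · exact Or.inl (Or.inr h4)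
    rcases h with h | h | h
    · exact absurd h h0
    · exact absurd h h4
    · obtain ⟨i, hi⟩ := cover_T h0 h4 h
      exact Or.inr ⟨i, i.2, hi⟩

theorem not_UU {P : V} (h : P ∉ OT 4) {j : Fin 12} (h10 : j ≠ 10) (h11 : j ≠ 11) : P ∉ UU j := by
  rw [mem_OT4] at h
  push Not at h
  intro hj
  rcases cover_F h.1 h.2.1 h.2.2 hj with h1 | h1
  · exact h10 h1
  · exact h11 h1

theorem St_w : St (OT 4 ∪ UU 10) 1 4 := by
  have hS : OT 4 ∩ UU 10 = Sm chw 2 := by
    ext P
    constructor
    · rintro ⟨h1, h2⟩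
      refine ⟨mem_chw.2 h2, ?_⟩
      by_contra hne
      push Not at hne
      have hv : rat 10 P 9 = 0 := hne 0 (by norm_num)
      have hu : rat 10 P 8 = 0 := hne 1 (by norm_num)
      have hz : rat 10 P 3 = 0 := hne 2 (by norm_num)
      have hE := (rat_Eqs h2).sym
      rw [rat_self h2, hv, hu, hz, neg_zero] at hE
      obtain ⟨e1, e2, e3, e4, e5, e6, e7⟩ := hE.of_p
      have hr : rat 10 P 5 = 0 := by linear_combination -e1
      have hs : rat 10 P 6 = 0 := by
        have e2' : rat 10 P 6 = rat 10 P 5 * rat 10 P 11 := by linear_combination -e2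
        rw [e2', hr, zero_mul]
      have hn : rat 10 P 7 = 0 := by
        have e3' : rat 10 P 7 = rat 10 P 6 * rat 10 P 11 := by linear_combination -e3
        rw [e3', hs, zero_mul]
      have hp : rat 10 P 0 = 0 := by
        rw [e6, hr]
        ring
      have ht : rat 10 P 4 = 0 := by
        rw [e7, hp]
        ring
      rw [mem_OT4] at h1
      rcases h1 with h1 | h1 | h1
      · exact (mem_UU_iff h2).1 h1 hp
      · exact (mem_UU_iff h2).1 h1 ht
      · exact (mem_UU_iff h2).1 h1 hn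
    · rintro ⟨h1, i, hi, h3⟩
      rw [mem_chw] at h1
      refine ⟨?_, h1⟩
      by_contra hne
      have key : ∀ j : Fin 12, j ≠ 10 → j ≠ 11 → rat 10 P j = 0 := by
        intro j h10 h11
        have := not_UU hne h10 h11
        rwa [mem_UU_iff h1, not_not] at this
      apply h3
      fin_cases i
      · exact key 9 (by decide) (by decide)
      · exact key 8 (by decide) (by decide)
      · exact key 3 (by decide) (by decide)
      · exact absurd hi (by norm_num)
  have hsph : Sph ↥(OT 4 ∩ UU 10 : Set V) 5 := by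
    rw [hS]
    exact Sm_sph chw 2 (by norm_num) (fun _ _ _ _ => trivial) fun _ _ => trivial
  have e : chw.src = UU 10 := Set.ext fun _ => mem_chw
  exact St_high (OT_open 4) (UU_open 10) (fun _ h => h) Set.subset_union_left
    Set.subset_union_right (fun k => by rw [← e]; exact ch_ac .w k) le_rfl hsph St_OT4

theorem St_V : St (Set.univ : Set V) 1 4 := by
  have hS : (OT 4 ∪ UU 10) ∩ UU 11 = Sm chd 3 := by
    ext P
    constructor
    · rintro ⟨h1, h2⟩
      refine ⟨mem_chd.2 h2, ?_⟩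
      by_contra hne
      push Not at hne
      have hw : rat 11 P 10 = 0 := hne 0 (by norm_num)
      have hv : rat 11 P 9 = 0 := hne 1 (by norm_num)
      have hu : rat 11 P 8 = 0 := hne 2 (by norm_num)
      have hn : rat 11 P 7 = 0 := hne 3 (by norm_num)
      have hE := (rat_Eqs h2).sym
      rw [rat_self h2, hv, hu, hw, hn, neg_zero] at hE
      obtain ⟨e1, e2, e3, e4, e5, e6, e7⟩ := hE.of_t
      have hs : rat 11 P 6 = 0 := by linear_combination -e1
      have hr : rat 11 P 5 = 0 := by linear_combination -e2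
      have ht : rat 11 P 4 = 0 := by
        rw [e4, hr]
        ring
      have hp : rat 11 P 0 = 0 := by
        rw [e7]
        ring
      rcases h1 with h1 | h1
      · rw [mem_OT4] at h1
        rcases h1 with h1 | h1 | h1
        · exact (mem_UU_iff h2).1 h1 hp
        · exact (mem_UU_iff h2).1 h1 ht
        · exact (mem_UU_iff h2).1 h1 hn
      · exact (mem_UU_iff h2).1 h1 hw
    · rintro ⟨h1, i, hi, h3⟩
      rw [mem_chd] at h1
      refine ⟨?_, h1⟩
      by_contra hne
      rw [Set.mem_union, not_or] at hne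
      have key : ∀ j : Fin 12, j ≠ 10 → j ≠ 11 → rat 11 P j = 0 := by
        intro j h10 h11
        have := not_UU hne.1 h10 h11
        rwa [mem_UU_iff h1, not_not] at this
      have key2 : rat 11 P 10 = 0 := by
        have := hne.2
        rwa [mem_UU_iff h1, not_not] at this
      apply h3
      fin_cases i
      · exact key2
      · exact key 9 (by decide) (by decide)
      · exact key 8 (by decide) (by decide)
      · exact key 7 (by decide) (by decide)
  have hsph : Sph ↥((OT 4 ∪ UU 10) ∩ UU 11 : Set V) 7 := by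
    rw [hS]
    exact Sm_sph chd 3 (by norm_num) (fun _ _ _ _ => trivial) fun _ _ => trivial
  have e : chd.src = UU 11 := Set.ext fun _ => mem_chd
  refine St_high ((OT_open 4).union (UU_open 10)) (UU_open 11) ?_ (Set.subset_univ _)
    (Set.subset_univ _) (fun k => by rw [← e]; exact ch_ac .d k) (by norm_num) hsph St_w
  intro P _
  by_cases h : P ∈ OT 4
  · exact Or.inl (Or.inl h)
  · have h' := h
    rw [mem_OT4] at h
    push Not at h
    rcases cover_wd h.1 h.2.1 h.2.2 with h1 | h1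
    · exact Or.inl (Or.inr h1)
    · exact Or.inr h1

end Pool.Agent.K1H15.C4
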