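import Pool.Agent.K1H15.C4.Space

/-! Charts of the variety. -/

set_option autoImplicit false

namespace Pool.Agent.K1H15.C4

open scoped Topology ContDiff

/-- data of a chart: the coordinates of number `κ m`, where the coordinate of number `j` is `1` -/
structure Ch where
  of ::
  j : Fin 12
  κ : Fin 4 → Fin 12
  D : Set (Fin 4 → ℂ)
  W : Set (Fin 12 → ℂ)
  s : (Fin 4 → ℂ) → Fin 12 → ℂ
  openD : IsOpen D
  openW : IsOpen W
  an : ContDiffOn ℂ ω s D
  s_j : ∀ c ∈ D, s c j = 1
  s_κ : ∀ c ∈ D, ∀ m, s c (κ m) = c m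
  s_eq : ∀ c ∈ D, Eqs (s c)
  s_W : ∀ c ∈ D, s c ∈ W
  inv : ∀ a, Eqs a → a j = 1 → a ∈ W → (fun m => a (κ m)) ∈ D ∧ s (fun m => a (κ m)) = a

theorem Ch.s_ne (A : Ch) {c : Fin 4 → ℂ} (hc : c ∈ A.D) : A.s c ≠ 0 := by
  intro h
  have := A.s_j c hc
  rw [h] at this
  exact zero_ne_one this

/-- a base point -/
noncomputable def base : V := mk (fun i => if i = 0 then 1 else 0)
  (fun h => by have := congrFun h 0; simp at this) (by constructor <;> simp)

/-- the parametrisation -/
noncomputable def Ch.par (A : Ch) (c : Fin 4 → ℂ) : V := by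
  classical
  exact if h : c ∈ A.D then mk (A.s c) (A.s_ne h) (A.s_eq c h) else base

theorem Ch.par_of (A : Ch) {c : Fin 4 → ℂ} (h : c ∈ A.D) :
    A.par c = mk (A.s c) (A.s_ne h) (A.s_eq c h) := by
  classical
  exact dif_pos h

/-- the domain -/
def Ch.src (A : Ch) : Set V := UU A.j ∩ rat A.j ⁻¹' A.W

theorem Ch.src_open (A : Ch) : IsOpen A.src :=
  (rat_continuousOn A.j).isOpen_inter_preimage (UU_open A.j) A.openW

/-- the coordinates -/
noncomputable def Ch.co (A : Ch) (P : V) : Fin 4 → ℂ := fun m => rat A.j P (A.κ m)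

theorem Ch.co_continuousOn (A : Ch) : ContinuousOn A.co A.src := by
  have h : Continuous fun (a : Fin 12 → ℂ) (m : Fin 4) => a (A.κ m) := by fun_prop
  exact h.comp_continuousOn ((rat_continuousOn A.j).mono Set.inter_subset_left)

theorem Ch.rat_par (A : Ch) {c : Fin 4 → ℂ} (h : c ∈ A.D) : rat A.j (A.par c) = A.s c := by
  rw [A.par_of h, rat_mk]
  · rw [A.s_j c h, inv_one, one_smul]
  · rw [A.s_j c h]
    exact one_ne_zero

theorem Ch.par_mem (A : Ch) {c : Fin 4 → ℂ} (h : c ∈ A.D) : A.par c ∈ A.src := by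
  constructor
  · rw [A.par_of h, mk_mem_UU, A.s_j c h]
    exact one_ne_zero
  · change rat A.j (A.par c) ∈ A.W
    rw [A.rat_par h]
    exact A.s_W c h

theorem Ch.co_par (A : Ch) {c : Fin 4 → ℂ} (h : c ∈ A.D) : A.co (A.par c) = c := by
  funext m
  change rat A.j (A.par c) (A.κ m) = c m
  rw [A.rat_par h, A.s_κ c h]

theorem Ch.co_mem (A : Ch) {P : V} (h : P ∈ A.src) : A.co P ∈ A.D :=
  (A.inv _ (rat_Eqs h.1) (rat_self h.1) h.2).1

theorem Ch.s_co (A : Ch) {P : V} (h : P ∈ A.src) : A.s (A.co P) = rat A.j P :=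
  (A.inv _ (rat_Eqs h.1) (rat_self h.1) h.2).2

theorem Ch.par_co (A : Ch) {P : V} (h : P ∈ A.src) : A.par (A.co P) = P := by
  rw [A.par_of (A.co_mem h)]
  refine (mk_congr _ (rat_ne h.1) _ (rat_Eqs h.1) (A.s_co h)).trans (mk_rat h.1)

theorem Ch.par_continuousOn (A : Ch) : ContinuousOn A.par A.D := by
  rw [continuousOn_iff_continuous_domRestrict]
  rw [continuous_induced_rng]
  have h1 : ContinuousOn (fun c => pr (A.s c)) A.D :=
    pr_continuousOn.comp A.an.continuousOn fun c hc => A.s_ne hc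
  rw [continuousOn_iff_continuous_domRestrict] at h1
  convert h1 using 1
  funext c
  change (A.par c.1).1 = _
  rw [A.par_of c.2]
  rfl

/-- the chart -/
noncomputable def Ch.e (A : Ch) : OpenPartialHomeomorph V (Fin 4 → ℂ) where
  toFun := A.co
  invFun := A.par
  source := A.src
  target := A.D
  map_source' := fun _ h => A.co_mem h
  map_target' := fun _ h => A.par_mem h
  left_inv' := fun _ h => A.par_co h
  right_inv' := fun _ h => A.co_par h
  open_source := A.src_open
  open_target := A.openD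
  continuousOn_toFun := A.co_continuousOn
  continuousOn_invFun := A.par_continuousOn

/-- transition functions are analytic -/
theorem Ch.trans (A B : Ch) : ContDiffOn ℂ ω (fun c => B.co (A.par c))
    {c | c ∈ A.D ∧ A.par c ∈ B.src} := by
  have h1 : ContDiffOn ℂ ω (fun c => fun m => A.s c (B.κ m) / A.s c B.j)
      {c | c ∈ A.D ∧ A.par c ∈ B.src} := by
    have h2 : ContDiffOn ℂ ω A.s {c | c ∈ A.D ∧ A.par c ∈ B.src} := A.an.mono fun _ h => h.1
    rw [contDiffOn_pi] at h2 ⊢
    intro m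
    refine (h2 _).div (h2 _) ?_
    rintro c ⟨hc, hc'⟩
    have := hc'.1
    rwa [A.par_of hc, mk_mem_UU] at this
  refine h1.congr ?_
  rintro c ⟨hc, hc'⟩
  funext m
  change rat B.j (A.par c) (B.κ m) = _
  have h3 := hc'.1
  rw [A.par_of hc] at h3 ⊢
  rw [mk_mem_UU] at h3
  rw [rat_mk _ _ h3, Pi.smul_apply, smul_eq_mul, div_eq_inv_mul]

end Pool.Agent.K1H15.C4
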