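import Pool.Agent.K1H15.C4.Alg

/-! The simple roots of the equation of the chart `n = 1`. -/

set_option autoImplicit false

namespace Pool.Agent.K1H15.C4

open scoped Topology ContDiff

/-- the equation as a function of all variables -/
def GG (v : (ℂ × ℂ × ℂ) × ℂ) : ℂ := G v.1.1 v.1.2.1 v.1.2.2 v.2

theorem GG_contDiff : ContDiff ℂ ω GG := by
  unfold GG G
  fun_prop

theorem GG_inv (r0 : ℂ) (h0 : r0 ^ 4 = r0) :
    (fderiv ℂ GG (0, r0) ∘L .inr ℂ (ℂ × ℂ × ℂ) ℂ).IsInvertible := by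
  have hd : DifferentiableAt ℂ GG (0, r0) := GG_contDiff.contDiffAt.differentiableAt (by simp)
  have h1 : HasFDerivAt (fun r : ℂ => GG (0, r)) (fderiv ℂ GG (0, r0) ∘L .inr ℂ (ℂ × ℂ × ℂ) ℂ) r0 :=
    hd.hasFDerivAt.comp r0 (hasFDerivAt_prodMk_right (0 : ℂ × ℂ × ℂ) r0)
  have h2 : HasDerivAt (fun r : ℂ => GG (0, r)) (4 * r0 ^ 3 - 1) r0 := by
    have e : (fun r : ℂ => GG (0, r)) = fun r => r ^ 4 - r := by
      funext r
      simp only [GG, G, Prod.fst_zero, Prod.snd_zero]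
      ring
    rw [e]
    have h5 := (hasDerivAt_pow 4 r0).sub (hasDerivAt_id r0)
    have e2 : (4 * r0 ^ 3 - 1 : ℂ) = ((4 : ℕ) : ℂ) * r0 ^ (4 - 1) - 1 := by norm_num
    rw [e2]
    exact h5
  have h3 := h1.unique h2.hasFDerivAt
  rw [h3]
  have hne : (4 * r0 ^ 3 - 1 : ℂ) ≠ 0 := by
    intro h
    by_cases hr : r0 = 0
    · subst hr
      norm_num at h
    · have h4 : r0 ^ 3 = 1 := by
        have : r0 * (r0 ^ 3 - 1) = 0 := by linear_combination h0
        rcases mul_eq_zero.1 this with h5 | h5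
        · exact absurd h5 hr
        · linear_combination h5
      rw [h4] at h
      norm_num at h
  refine ⟨ContinuousLinearEquiv.unitsEquivAut ℂ (Units.mk0 _ hne), ?_⟩
  ext
  simp

theorem root (r0 : ℂ) (h0 : r0 ^ 4 = r0) :
    ∃ δ ε : ℝ, 0 < δ ∧ δ ≤ 1 / 8 ∧ 0 < ε ∧ ∃ β : ℂ × ℂ × ℂ → ℂ,
      (∀ q, ‖q‖ < ε → ContDiffAt ℂ ω β q) ∧
      (∀ q, ‖q‖ < ε → ‖β q - r0‖ < δ) ∧
      (∀ q, ‖q‖ < ε → ∀ r, ‖r - r0‖ < δ → (GG (q, r) = 0 ↔ r = β q)) := by
  have hc : ContDiffAt ℂ ω GG ((0 : ℂ × ℂ × ℂ), r0) := GG_contDiff.contDiffAt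
  have hn : (ω : ℕ∞ω) ≠ 0 := by simp
  set β := hc.implicitFunction hn (GG_inv r0 h0) with hβ
  have hG : GG (0, r0) = 0 := by
    simp only [GG, G, Prod.fst_zero, Prod.snd_zero]
    linear_combination h0
  have a0 : β 0 = r0 := hc.implicitFunction_apply_self hn (GG_inv r0 h0)
  have a1 := hc.eventually_apply_eq_iff_implicitFunction hn (GG_inv r0 h0)
  have a2 : ContDiffAt ℂ ω β 0 := hc.contDiffAt_implicitFunction hn (GG_inv r0 h0)
  have a3 : ∀ᶠ q in 𝓝 (0 : ℂ × ℂ × ℂ), ContDiffAt ℂ ω β q := by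
    have := a2.analyticAt.eventually_analyticAt
    filter_upwards [this] with q hq
    exact hq.contDiffAt
  rw [nhds_prod_eq, Filter.eventually_prod_iff] at a1
  obtain ⟨pa, hpa, pb, hpb, hab⟩ := a1
  rw [Metric.eventually_nhds_iff] at hpb
  obtain ⟨δ', hδ', hpb⟩ := hpb
  set δ := min δ' (1 / 8) with hδdef
  have hδ : 0 < δ := lt_min hδ' (by norm_num)
  have a4 : ∀ᶠ q in 𝓝 (0 : ℂ × ℂ × ℂ), ‖β q - r0‖ < δ := by
    have := a2.continuousAt
    rw [Metric.continuousAt_iff'] at this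
    filter_upwards [this δ hδ] with q hq
    rwa [a0, dist_eq_norm] at hq
  have a5 := (hpa.and (a3.and a4))
  rw [Metric.eventually_nhds_iff] at a5
  obtain ⟨ε, hε, a5⟩ := a5
  refine ⟨δ, ε, hδ, min_le_right _ _, hε, β, ?_, ?_, ?_⟩
  · intro q hq
    exact (a5 (by simpa using hq)).2.1
  · intro q hq
    exact (a5 (by simpa using hq)).2.2
  · intro q hq r hr
    have h1 := (a5 (y := q) (by simpa using hq)).1
    have h2 := hpb (y := r) (by
      rw [dist_eq_norm]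
      exact hr.trans_le (min_le_left _ _))
    have h3 := hab h1 h2
    rw [hG] at h3
    rw [h3]
    exact eq_comm

end Pool.Agent.K1H15.C4
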