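import Pool.Agent.K1H15.C4.Chart
import Pool.Agent.K1H15.C4.Root

/-! The eight charts. -/

set_option autoImplicit false

namespace Pool.Agent.K1H15.C4

open scoped Topology ContDiff

theorem vec_eta (a : Fin 12 → ℂ) :
    ![a 0, a 1, a 2, a 3, a 4, a 5, a 6, a 7, a 8, a 9, a 10, a 11] = a := by
  funext i
  fin_cases i <;> rfl

/-- the symmetry -/
def sg (a : Fin 12 → ℂ) : Fin 12 → ℂ :=
  ![a 10, -a 9, a 8, -a 3, a 11, -a 5, -a 6, -a 7, a 2, -a 1, a 0, a 4]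

theorem sg_Eqs {a : Fin 12 → ℂ} (h : Eqs a) : Eqs (sg a) := E.sym h

theorem sg_sg (a : Fin 12 → ℂ) : sg (sg a) = a := by
  funext i
  fin_cases i <;> simp [sg]

theorem sg_contDiff : ContDiff ℂ ω sg := by
  rw [contDiff_pi]
  intro i
  fin_cases i <;> simp [sg] <;> fun_prop

/-- the points with `p = 1` -/
def vp (x y z t : ℂ) : Fin 12 → ℂ :=
  let r := x * y - z * t
  let s := r * t - x ^ 2
  let n := s * t - y ^ 2
  let u := z * y - x * s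
  let v := z * x - r * y
  let w := r * s - z ^ 2
  let d := x * u + y * v + t * w
  ![1, x, y, z, t, r, s, n, u, v, w, d]

theorem vp_Eqs (x y z t : ℂ) : Eqs (vp x y z t) :=
  E_p _ _ _ _ _ _ _ _ _ _ _ rfl rfl rfl rfl rfl rfl rfl

theorem vp_contDiff : ContDiff ℂ ω fun c : Fin 4 → ℂ => vp (c 0) (c 1) (c 2) (c 3) := by
  rw [contDiff_pi]
  intro i
  fin_cases i <;> simp [vp] <;> fun_prop

theorem vp_inv {a : Fin 12 → ℂ} (h : Eqs a) (h0 : a 0 = 1) : vp (a 1) (a 2) (a 3) (a 4) = a := by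
  unfold Eqs at h
  rw [h0] at h
  obtain ⟨hr, hs, hn, hu, hv, hw, hd⟩ := h.of_p
  rw [← vec_eta a]
  simp only [vp, Matrix.cons_val, ← hr, ← hs, ← hn, ← hu, ← hv, ← hw, ← hd, h0]

/-- the points with `t = 1` -/
def vt (p x y n : ℂ) : Fin 12 → ℂ :=
  let s := p * n + y ^ 2
  let r := p * s + x ^ 2
  let z := x * y - p * r
  let d := n * s - r ^ 2
  let u := -(x * n + y * r)
  let v := -(x * r + y * s)
  let w := p * d - x * u - y * v
  ![p, x, y, z, 1, r, s, n, u, v, w, d]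

theorem vt_Eqs (p x y n : ℂ) : Eqs (vt p x y n) :=
  E_t _ _ _ _ _ _ _ _ _ _ _ rfl rfl rfl rfl rfl rfl rfl

theorem vt_contDiff : ContDiff ℂ ω fun c : Fin 4 → ℂ => vt (c 0) (c 1) (c 2) (c 3) := by
  rw [contDiff_pi]
  intro i
  fin_cases i <;> simp [vt] <;> fun_prop

theorem vt_inv {a : Fin 12 → ℂ} (h : Eqs a) (h0 : a 4 = 1) : vt (a 0) (a 1) (a 2) (a 7) = a := by
  unfold Eqs at h
  rw [h0] at h
  obtain ⟨hs, hr, hz, hd, hu, hv, hw⟩ := h.of_t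
  rw [← vec_eta a]
  simp only [vt, Matrix.cons_val, ← hs, ← hr, ← hz, ← hd, ← hu, ← hv, ← hw, h0]

/-- the chart `p = 1` -/
def chp : Ch where
  j := 0
  κ := ![1, 2, 3, 4]
  D := Set.univ
  W := Set.univ
  s := fun c => vp (c 0) (c 1) (c 2) (c 3)
  openD := isOpen_univ
  openW := isOpen_univ
  an := vp_contDiff.contDiffOn
  s_j := fun c _ => rfl
  s_κ := fun c _ m => by fin_cases m <;> rfl
  s_eq := fun c _ => vp_Eqs _ _ _ _
  s_W := fun c _ => trivial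
  inv := fun a h h0 _ => ⟨trivial, vp_inv h h0⟩

/-- the chart `t = 1` -/
def cht : Ch where
  j := 4
  κ := ![0, 1, 2, 7]
  D := Set.univ
  W := Set.univ
  s := fun c => vt (c 0) (c 1) (c 2) (c 3)
  openD := isOpen_univ
  openW := isOpen_univ
  an := vt_contDiff.contDiffOn
  s_j := fun c _ => rfl
  s_κ := fun c _ m => by fin_cases m <;> rfl
  s_eq := fun c _ => vt_Eqs _ _ _ _
  s_W := fun c _ => trivial
  inv := fun a h h0 _ => ⟨trivial, vt_inv h h0⟩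

theorem vw_contDiff : ContDiff ℂ ω fun c : Fin 4 → ℂ => sg (vp (-c 0) (c 1) (-c 2) (c 3)) := by
  have h : ContDiff ℂ ω fun c : Fin 4 → ℂ => (![-c 0, c 1, -c 2, c 3] : Fin 4 → ℂ) := by
    rw [contDiff_pi]
    intro i
    fin_cases i <;> simp <;> fun_prop
  exact sg_contDiff.comp (vp_contDiff.comp h)

/-- the chart `w = 1` -/
def chw : Ch where
  j := 10
  κ := ![9, 8, 3, 11]
  D := Set.univ
  W := Set.univ
  s := fun c => sg (vp (-c 0) (c 1) (-c 2) (c 3))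
  openD := isOpen_univ
  openW := isOpen_univ
  an := vw_contDiff.contDiffOn
  s_j := fun c _ => rfl
  s_κ := fun c _ m => by fin_cases m <;> simp [sg, vp]
  s_eq := fun c _ => sg_Eqs (vp_Eqs _ _ _ _)
  s_W := fun c _ => trivial
  inv := fun a h h0 _ => ⟨trivial, by
    have h1 : sg a 0 = 1 := h0
    have h2 := vp_inv (sg_Eqs h) h1
    change sg (vp (-a 9) (a 8) (-a 3) (a 11)) = a
    have h3 : vp (-a 9) (a 8) (-a 3) (a 11) = sg a := h2
    rw [h3, sg_sg]⟩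

theorem vd_contDiff : ContDiff ℂ ω fun c : Fin 4 → ℂ => sg (vt (c 0) (-c 1) (c 2) (-c 3)) := by
  have h : ContDiff ℂ ω fun c : Fin 4 → ℂ => (![c 0, -c 1, c 2, -c 3] : Fin 4 → ℂ) := by
    rw [contDiff_pi]
    intro i
    fin_cases i <;> simp <;> fun_prop
  exact sg_contDiff.comp (vt_contDiff.comp h)

/-- the chart `d = 1` -/
def chd : Ch where
  j := 11
  κ := ![10, 9, 8, 7]
  D := Set.univ
  W := Set.univ
  s := fun c => sg (vt (c 0) (-c 1) (c 2) (-c 3))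
  openD := isOpen_univ
  openW := isOpen_univ
  an := vd_contDiff.contDiffOn
  s_j := fun c _ => rfl
  s_κ := fun c _ m => by fin_cases m <;> simp [sg, vt]
  s_eq := fun c _ => sg_Eqs (vt_Eqs _ _ _ _)
  s_W := fun c _ => trivial
  inv := fun a h h0 _ => ⟨trivial, by
    have h1 : sg a 4 = 1 := h0
    have h2 := vt_inv (sg_Eqs h) h1
    change sg (vt (a 10) (-a 9) (a 8) (-a 7)) = a
    have h3 : vt (a 10) (-a 9) (a 8) (-a 7) = sg a := h2
    rw [h3, sg_sg]⟩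

/-- the points with `n = 1` -/
def vn (c : Fin 4 → ℂ) (r : ℂ) : Fin 12 → ℂ :=
  let t := c 0
  let y := c 1
  let u := c 2
  let d := c 3
  let s := d * t + r ^ 2
  let p := s * t - y ^ 2
  let z := -(s * r + y * u)
  let x := -(y * r + t * u)
  let v := r * u - d * y
  let w := d * s + u ^ 2
  ![p, x, y, z, t, r, s, 1, u, v, w, d]

/-- the parameters of the equation -/
def qq (c : Fin 4 → ℂ) : ℂ × ℂ × ℂ := (c 3 * c 0, c 1 * c 2, c 3 * c 1 ^ 2 - c 0 * c 2 ^ 2)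

theorem vn_Eqs {c : Fin 4 → ℂ} {r : ℂ} (h : GG (qq c, r) = 0) : Eqs (vn c r) :=
  E_n _ _ _ _ _ _ _ _ _ _ _ h rfl rfl rfl rfl rfl rfl

theorem vn_contDiff : ContDiff ℂ ω fun v : (Fin 4 → ℂ) × ℂ => vn v.1 v.2 := by
  rw [contDiff_pi]
  intro i
  fin_cases i <;> simp [vn] <;> fun_prop

theorem vn_inv {a : Fin 12 → ℂ} (h : Eqs a) (h0 : a 7 = 1) :
    GG (qq ![a 4, a 2, a 8, a 11], a 5) = 0 ∧ vn ![a 4, a 2, a 8, a 11] (a 5) = a := by
  unfold Eqs at h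
  rw [h0] at h
  obtain ⟨hG, hs, hp, hz, hx, hv, hw⟩ := h.of_n
  refine ⟨hG, ?_⟩
  rw [← vec_eta a]
  simp only [vn, Matrix.cons_val, ← hs, ← hp, ← hz, ← hx, ← hv, ← hw, h0]

theorem qq_contDiff : ContDiff ℂ ω qq := by
  unfold qq
  fun_prop

/-- a neighbourhood of the planes `t = y = 0` and `u = d = 0` -/
def Th (ε : ℝ) : Set (Fin 4 → ℂ) :=
  {c | ‖c 3 * c 0‖ < ε ∧ ‖c 1 * c 2‖ < ε ∧ ‖c 3 * c 1 ^ 2‖ < ε ∧ ‖c 0 * c 2 ^ 2‖ < ε}

theorem Th_open (ε : ℝ) : IsOpen (Th ε) := by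
  have h1 : IsOpen {c : Fin 4 → ℂ | ‖c 3 * c 0‖ < ε} := isOpen_lt (by fun_prop) continuous_const
  have h2 : IsOpen {c : Fin 4 → ℂ | ‖c 1 * c 2‖ < ε} := isOpen_lt (by fun_prop) continuous_const
  have h3 : IsOpen {c : Fin 4 → ℂ | ‖c 3 * c 1 ^ 2‖ < ε} :=
    isOpen_lt (by fun_prop) continuous_const
  have h4 : IsOpen {c : Fin 4 → ℂ | ‖c 0 * c 2 ^ 2‖ < ε} :=
    isOpen_lt (by fun_prop) continuous_const
  exact h1.inter (h2.inter (h3.inter h4))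

theorem Th_qq {ε : ℝ} {c : Fin 4 → ℂ} (h : c ∈ Th (ε / 2)) : ‖qq c‖ < ε := by
  obtain ⟨h1, h2, h3, h4⟩ := h
  have hε : 0 < ε := by
    have := (norm_nonneg _).trans_lt h1
    linarith
  rw [Prod.norm_def, Prod.norm_def]
  refine max_lt ?_ (max_lt ?_ ?_)
  · exact h1.trans (by linarith)
  · exact h2.trans (by linarith)
  · refine (norm_sub_le _ _).trans_lt ?_
    linarith

/-- scaling -/
theorem Th_scale {ε : ℝ} {c c' : Fin 4 → ℂ} (h : c ∈ Th ε) (h' : ∀ i, ‖c' i‖ ≤ ‖c i‖) :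
    c' ∈ Th ε := by
  obtain ⟨h1, h2, h3, h4⟩ := h
  simp only [norm_mul, norm_pow] at h1 h2 h3 h4
  refine ⟨?_, ?_, ?_, ?_⟩ <;> simp only [norm_mul, norm_pow]
  · exact lt_of_le_of_lt (by gcongr <;> exact h' _) h1
  · exact lt_of_le_of_lt (by gcongr <;> exact h' _) h2
  · exact lt_of_le_of_lt (by gcongr <;> exact h' _) h3
  · exact lt_of_le_of_lt (by gcongr <;> exact h' _) h4

/-- data at a root -/
structure RD (r0 : ℂ) where
  δ : ℝ
  ε : ℝ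
  β : ℂ × ℂ × ℂ → ℂ
  hδ : 0 < δ
  hδ' : δ ≤ 1 / 8
  hε : 0 < ε
  an : ∀ q, ‖q‖ < ε → ContDiffAt ℂ ω β q
  near : ∀ q, ‖q‖ < ε → ‖β q - r0‖ < δ
  uniq : ∀ q, ‖q‖ < ε → ∀ r, ‖r - r0‖ < δ → (GG (q, r) = 0 ↔ r = β q)

theorem exists_RD {r0 : ℂ} (h0 : r0 ^ 4 = r0) : Nonempty (RD r0) := by
  obtain ⟨δ, ε, h1, h2, h3, β, h4, h5, h6⟩ := root r0 h0
  exact ⟨⟨δ, ε, β, h1, h2, h3, h4, h5, h6⟩⟩

/-- the chart at a point of `n = 1` -/
def RD.ch {r0 : ℂ} (R : RD r0) : Ch where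
  j := 7
  κ := ![4, 2, 8, 11]
  D := Th (R.ε / 2)
  W := {a | (![a 4, a 2, a 8, a 11] : Fin 4 → ℂ) ∈ Th (R.ε / 2) ∧ ‖a 5 - r0‖ < R.δ}
  s := fun c => vn c (R.β (qq c))
  openD := Th_open _
  openW := by
    have h1 : Continuous fun a : Fin 12 → ℂ => (![a 4, a 2, a 8, a 11] : Fin 4 → ℂ) := by
      refine continuous_pi fun i => ?_
      fin_cases i <;> simp <;> fun_prop
    have h2 : IsOpen {a : Fin 12 → ℂ | ‖a 5 - r0‖ < R.δ} :=
      isOpen_lt (by fun_prop) continuous_const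
    exact ((Th_open (R.ε / 2)).preimage h1).inter h2
  an := by
    have h1 : ContDiffOn ℂ ω (fun c => R.β (qq c)) (Th (R.ε / 2)) := by
      intro c hc
      exact ((R.an _ (Th_qq hc)).comp c qq_contDiff.contDiffAt).contDiffWithinAt
    have h2 : ContDiffOn ℂ ω (fun c : Fin 4 → ℂ => (c, R.β (qq c))) (Th (R.ε / 2)) :=
      contDiffOn_id.prodMk h1
    have h3 := ContDiff.comp_contDiffOn (g := fun v : (Fin 4 → ℂ) × ℂ => vn v.1 v.2)
      vn_contDiff h2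
    exact h3
  s_j := fun c _ => rfl
  s_κ := fun c _ m => by fin_cases m <;> rfl
  s_eq := fun c hc => vn_Eqs ((R.uniq _ (Th_qq hc) _ (R.near _ (Th_qq hc))).2 rfl)
  s_W := fun c hc => by
    refine ⟨?_, R.near _ (Th_qq hc)⟩
    convert hc using 1
    funext i
    fin_cases i <;> rfl
  inv := fun a h h0 hW => by
    obtain ⟨h1, h2⟩ := hW
    obtain ⟨h3, h4⟩ := vn_inv h h0
    have h5 : (fun m => a ((![4, 2, 8, 11] : Fin 4 → Fin 12) m)) = ![a 4, a 2, a 8, a 11] := by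
      funext i
      fin_cases i <;> rfl
    rw [h5]
    refine ⟨h1, ?_⟩
    rw [← (R.uniq _ (Th_qq h1) _ h2).1 h3]
    exact h4

end Pool.Agent.K1H15.C4
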