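import Pool.Agent.K1H15.C4.Top

/-! Singular cohomology with rational coefficients. -/

set_option autoImplicit false

namespace Pool.Agent.K1H15.C4

open Pool.Agent.Y209.HB

universe u

/-- the coboundary of rational singular cochains: the value on a singular `(n + 1)`-simplex is the
alternating sum of the values on its faces -/
noncomputable def cobd (X : Type u) [TopologicalSpace X] (n : ℕ) :
    (Sing X n → ℚ) →ₗ[ℚ] (Sing X (n + 1) → ℚ) where
  toFun φ := fun σ => ∑ i : Fin (n + 2), (-1 : ℚ) ^ (i : ℕ) * φ (sface n i σ)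
  map_add' φ ψ := by
    funext σ
    simp only [Pi.add_apply, mul_add, Finset.sum_add_distrib]
  map_smul' c φ := by
    funext σ
    simp only [Pi.smul_apply, smul_eq_mul, RingHom.id_apply, Finset.mul_sum]
    exact Finset.sum_congr rfl fun i _ => by ring

/-- singular coboundaries -/
noncomputable def Cobdy (X : Type u) [TopologicalSpace X] : ∀ n : ℕ, Submodule ℚ (Sing X n → ℚ)
  | 0 => ⊥
  | (n + 1) => LinearMap.range (cobd X n)

/-- singular cocycles -/
noncomputable def Cocyc (X : Type u) [TopologicalSpace X] (n : ℕ) : Submodule ℚ (Sing X n → ℚ) :=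
  LinearMap.ker (cobd X n)

/-- singular cohomology with rational coefficients -/
abbrev Coh (X : Type u) [TopologicalSpace X] (n : ℕ) : Type u :=
  Cocyc X n ⧸ (Cobdy X n).submoduleOf (Cocyc X n)

variable {X : Type u} [TopologicalSpace X]

/-- evaluation of a cochain on chains -/
noncomputable def evl {n : ℕ} (φ : Sing X n → ℚ) : (Sing X n →₀ ℚ) →ₗ[ℚ] ℚ :=
  Finsupp.linearCombination ℚ φ

theorem evl_single {n : ℕ} (φ : Sing X n → ℚ) (σ : Sing X n) :
    evl φ (Finsupp.single σ 1) = φ σ := by
  simp [evl]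

theorem evl_cobd {n : ℕ} (φ : Sing X n → ℚ) (z : Sing X (n + 1) →₀ ℚ) :
    evl (cobd X n φ) z = evl φ (bdry X n z) := by
  have : evl (cobd X n φ) = (evl φ).comp (bdry X n) := by
    apply Finsupp.lhom_ext'
    intro σ
    apply LinearMap.ext_ring
    simp only [LinearMap.comp_apply, Finsupp.lsingle_apply]
    rw [evl_single, bdry_single, map_sum]
    change ∑ i : Fin (n + 2), (-1 : ℚ) ^ (i : ℕ) * φ (sface n i σ) = _
    refine Finset.sum_congr rfl fun i _ => ?_
    rw [map_smul, evl_single, smul_eq_mul]
  exact LinearMap.congr_fun this z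

theorem evl_linear {n : ℕ} (L : (Sing X n →₀ ℚ) →ₗ[ℚ] ℚ) :
    evl (fun σ => L (Finsupp.single σ 1)) = L := by
  apply Finsupp.lhom_ext'
  intro σ
  apply LinearMap.ext_ring
  simp only [LinearMap.comp_apply, Finsupp.lsingle_apply]
  rw [evl_single]

/-- universal coefficients over a field -/
theorem finrank_Coh {n d : ℕ} (h : DimO (Set.univ : Set X) (n + 1) d) :
    Module.finrank ℚ (Coh X (n + 1)) = d := by
  obtain ⟨z, hz, h1, h2⟩ := h
  have hcyc : ∀ w ∈ Cyc X (n + 1), ∃ c : Fin d → ℚ, w - ∑ i, c i • z i ∈ Bdy X (n + 1) := by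
    intro w hw
    obtain ⟨c, hc⟩ := h1 w (mem_sp_univ w) hw
    rw [Bd_univ] at hc
    exact ⟨c, hc⟩
  rw [Bd_univ] at h2
  -- evaluation on the basis
  let Φ : Cocyc X (n + 1) →ₗ[ℚ] (Fin d → ℚ) :=
    { toFun := fun φ i => evl φ.1 (z i)
      map_add' := by
        intro φ ψ
        funext i
        simp only [evl, Submodule.coe_add, Pi.add_apply, Finsupp.linearCombination_apply,
          Finsupp.sum, smul_add, Finset.sum_add_distrib]
      map_smul' := by
        intro c φ
        funext i
        simp only [evl, Submodule.coe_smul, Pi.smul_apply, Finsupp.linearCombination_apply,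
          Finsupp.sum, RingHom.id_apply, smul_eq_mul, Finset.mul_sum]
        exact Finset.sum_congr rfl fun i _ => by ring }
  have hB : ∀ φ ∈ Cocyc X (n + 1), ∀ b ∈ Bdy X (n + 1), evl φ b = 0 := by
    rintro φ hφ _ ⟨w, rfl⟩
    rw [← evl_cobd]
    have : cobd X (n + 1) φ = 0 := hφ
    rw [this]
    simp [evl]
  have hker : LinearMap.ker Φ = (Cobdy X (n + 1)).submoduleOf (Cocyc X (n + 1)) := by
    ext φ
    constructor
    · intro hφ
      have hφ' : ∀ i, evl φ.1 (z i) = 0 := fun i => congrFun (LinearMap.mem_ker.1 hφ) i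
      have h3 : evl φ.1 ∈ (LinearMap.ker (bdry X n)).dualAnnihilator := by
        rw [Submodule.mem_dualAnnihilator]
        intro w hw
        obtain ⟨c, hc⟩ := hcyc w hw
        have h4 := hB φ.1 φ.2 _ hc
        rw [map_sub, map_sum] at h4
        simp only [map_smul, hφ', smul_zero, Finset.sum_const_zero, sub_zero] at h4
        exact h4
      rw [← LinearMap.range_dualMap_eq_dualAnnihilator_ker] at h3
      obtain ⟨ψ, hψ⟩ := h3
      refine ⟨fun σ => ψ (Finsupp.single σ 1), ?_⟩
      funext σ
      rw [← evl_single (cobd X n _) σ, evl_cobd, evl_linear]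
      have h5 := LinearMap.congr_fun hψ (Finsupp.single σ 1)
      rw [LinearMap.dualMap_apply, evl_single] at h5
      exact h5
    · rintro ⟨ψ, hψ⟩
      rw [LinearMap.mem_ker]
      funext i
      change evl φ.1 (z i) = 0
      have hψ' : cobd X n ψ = φ.1 := hψ
      rw [← hψ', evl_cobd]
      have : bdry X n (z i) = 0 := (hz i).2
      rw [this, map_zero]
  have hsurj : Function.Surjective Φ := by
    intro a
    have hli : LinearIndependent ℚ fun i => (Bdy X (n + 1)).mkQ (z i) := by
      rw [Fintype.linearIndependent_iff]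
      intro c hc
      have h3 : ∑ i, c i • z i ∈ Bdy X (n + 1) := by
        rw [← Submodule.Quotient.mk_eq_zero, ← Submodule.mkQ_apply, map_sum]
        simpa using hc
      exact fun i => congrFun (h2 c h3) i
    let b := Module.Basis.span hli
    obtain ⟨L, hL⟩ := LinearMap.exists_extend (b.constr ℚ a)
    have hL' : ∀ i, L ((Bdy X (n + 1)).mkQ (z i)) = a i := by
      intro i
      have h3 := LinearMap.congr_fun hL (b i)
      rw [Module.Basis.constr_basis, LinearMap.comp_apply, Submodule.subtype_apply,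
        Module.Basis.span_apply] at h3
      exact h3
    let φ : Sing X (n + 1) → ℚ := fun σ => (L.comp (Bdy X (n + 1)).mkQ) (Finsupp.single σ 1)
    have hφ : evl φ = L.comp (Bdy X (n + 1)).mkQ := evl_linear _
    refine ⟨⟨φ, ?_⟩, ?_⟩
    · change cobd X (n + 1) φ = 0
      funext σ
      have hb : bdry X (n + 1) (Finsupp.single σ 1) ∈ Bdy X (n + 1) := ⟨_, rfl⟩
      rw [← evl_single (cobd X (n + 1) φ) σ, evl_cobd, hφ, LinearMap.comp_apply,
        Submodule.mkQ_apply, (Submodule.Quotient.mk_eq_zero _).2 hb, map_zero]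
      rfl
    · funext i
      change evl φ (z i) = a i
      rw [hφ, LinearMap.comp_apply, hL']
  have e := (Submodule.quotEquivOfEq _ _ hker.symm).trans (Φ.quotKerEquivOfSurjective hsurj)
  rw [e.finrank_eq, Module.finrank_fin_fun]

end Pool.Agent.K1H15.C4
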