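import Pool.Agent.K1H15.C4.Mfd

/-! Connectedness, and the compactification of the affine space. -/

set_option autoImplicit false

namespace Pool.Agent.K1H15.C4

open scoped Topology ContDiff Manifold

theorem Th_star {ε : ℝ} (c : Fin 4 → ℂ) (hc : c ∈ Th ε) (r : ℝ) (h0 : 0 ≤ r) (h1 : r ≤ 1) :
    (r : ℂ) • c ∈ Th ε := by
  refine Th_scale hc fun i => ?_
  rw [Pi.smul_apply, norm_smul, Complex.norm_real, Real.norm_of_nonneg h0]
  exact mul_le_of_le_one_left (norm_nonneg _) h1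

theorem ch_star (i : Ix) : ∀ c ∈ (ch i).D, ∀ r : ℝ, 0 ≤ r → r ≤ 1 → (r : ℂ) • c ∈ (ch i).D := by
  cases i with
  | p => exact fun _ _ _ _ _ => trivial
  | t => exact fun _ _ _ _ _ => trivial
  | w => exact fun _ _ _ _ _ => trivial
  | d => exact fun _ _ _ _ _ => trivial
  | T i => exact fun c hc r h0 h1 => Th_star c hc r h0 h1

/-- a point of the chart `n = 1` in the charts `T` -/
theorem T_point (i : Fin 4) : (![0, 1, 0, 0] : Fin 4 → ℂ) ∈ (chT i).D := by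
  have hp : 0 < (RDi i).ε / 2 := by
    have := (RDi i).hε
    linarith
  refine ⟨?_, ?_, ?_, ?_⟩ <;> simpa using hp

theorem ch_meet (i : Ix) : ∃ P : V, P ∈ (ch i).src ∧ P ∈ chp.src := by
  have key : ∀ (j : Fin 12) (a : Fin 12 → ℂ) (h : Eqs a) (h0 : a 0 ≠ 0) (h1 : a j ≠ 0),
      ∃ P : V, P ∈ UU j ∧ P ∈ chp.src := by
    intro j a h h0 h1
    have ha : a ≠ 0 := fun h2 => h0 (by rw [h2]; rfl)
    exact ⟨mk a ha h, (mk_mem_UU ha h).2 h1, mem_chp.2 ((mk_mem_UU ha h).2 h0)⟩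
  cases i with
  | p =>
    obtain ⟨P, _, hP⟩ := key 0 _ (vp_Eqs 0 0 0 0) one_ne_zero one_ne_zero
    exact ⟨P, hP, hP⟩
  | t =>
    obtain ⟨P, h1, h2⟩ := key 4 _ (vp_Eqs 0 0 0 1) one_ne_zero one_ne_zero
    exact ⟨P, mem_cht.2 h1, h2⟩
  | w =>
    obtain ⟨P, h1, h2⟩ := key 10 _ (vp_Eqs 0 0 1 0) one_ne_zero (by simp [vp])
    exact ⟨P, mem_chw.2 h1, h2⟩
  | d =>
    obtain ⟨P, h1, h2⟩ := key 11 _ (vp_Eqs 0 0 1 (-1)) one_ne_zero (by simp [vp])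
    exact ⟨P, mem_chd.2 h1, h2⟩
  | T i =>
    refine ⟨(chT i).par ![0, 1, 0, 0], (chT i).par_mem (T_point i), ?_⟩
    rw [mem_chp, (chT i).par_of (T_point i), mk_mem_UU]
    change (0 * 0 + (RDi i).β (qq ![0, 1, 0, 0]) ^ 2) * 0 - 1 ^ 2 ≠ (0 : ℂ)
    norm_num

instance : ConnectedSpace V := by
  have hb : base ∈ chp.src := by
    rw [mem_chp]
    exact (mk_mem_UU _ _).2 (by simp)
  have h1 : IsPreconnected (Set.univ : Set V) := by
    have h2 : (Set.univ : Set V) = ⋃₀ (Set.range fun i => chp.src ∪ (ch i).src) := by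
      ext P
      refine ⟨fun _ => ?_, fun _ => trivial⟩
      obtain ⟨i, hi⟩ := cover P
      exact ⟨_, ⟨i, rfl⟩, Or.inr hi⟩
    rw [h2]
    refine isPreconnected_sUnion base _ ?_ ?_
    · rintro _ ⟨i, rfl⟩
      exact Or.inl hb
    · rintro _ ⟨i, rfl⟩
      obtain ⟨P, h3, h4⟩ := ch_meet i
      exact IsPreconnected.union P h4 h3 (src_preconn _ (ch_star .p)) (src_preconn _ (ch_star i))
  exact { isPreconnected_univ := h1, toNonempty := ⟨base⟩ }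

/-- the hyperplane section `p = 0` -/
def AA : Set V := (UU 0)ᶜ

theorem AA_closed : IsClosed AA := (UU_open 0).isClosed_compl

/-- local equations -/
theorem AA_local (P : V) : ∃ U : Set V, IsOpen U ∧ P ∈ U ∧ ∃ F : V → ℂ,
    ContMDiffOn 𝓘(ℂ, Fin 4 → ℂ) 𝓘(ℂ, ℂ) ω F U ∧ AA ∩ U = {Q | Q ∈ U ∧ F Q = 0} := by
  obtain ⟨i, hi⟩ := cover P
  refine ⟨(ch i).src, (ch i).src_open, hi, fun Q => (ch i).s ((ch i).co Q) 0, ?_, ?_⟩
  · have h1 : ContMDiffOn 𝓘(ℂ, Fin 4 → ℂ) 𝓘(ℂ, Fin 4 → ℂ) ω (ch i).e (ch i).e.source :=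
      contMDiffOn_of_mem_maximalAtlas (ch_mem i)
    have h2 : ContDiffOn ℂ ω (fun c => (ch i).s c 0) (ch i).D := (contDiffOn_pi.1 (ch i).an) 0
    exact h2.contMDiffOn.comp h1 fun Q hQ => (ch i).co_mem hQ
  · ext Q
    constructor
    · rintro ⟨h1, h2⟩
      refine ⟨h2, ?_⟩
      change (ch i).s ((ch i).co Q) 0 = 0
      rw [(ch i).s_co h2]
      by_contra h3
      exact h1 ((mem_UU_iff h2.1).2 h3)
    · rintro ⟨h1, h2⟩
      refine ⟨?_, h1⟩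
      have h2' : (ch i).s ((ch i).co Q) 0 = 0 := h2
      rw [(ch i).s_co h1] at h2'
      intro h3
      exact (mem_UU_iff h1.1).1 h3 h2'

theorem par_contMDiff : ContMDiff 𝓘(ℂ, Fin 4 → ℂ) 𝓘(ℂ, Fin 4 → ℂ) ω chp.par := by
  have h1 : ContMDiffOn 𝓘(ℂ, Fin 4 → ℂ) 𝓘(ℂ, Fin 4 → ℂ) ω chp.e.symm chp.e.target :=
    contMDiffOn_symm_of_mem_maximalAtlas (ch_mem .p)
  exact contMDiffOn_univ.1 h1

theorem co_contMDiffOn : ContMDiffOn 𝓘(ℂ, Fin 4 → ℂ) 𝓘(ℂ, Fin 4 → ℂ) ω chp.co AAᶜ := by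
  have h1 : ContMDiffOn 𝓘(ℂ, Fin 4 → ℂ) 𝓘(ℂ, Fin 4 → ℂ) ω chp.e chp.e.source :=
    contMDiffOn_of_mem_maximalAtlas (ch_mem .p)
  refine h1.mono ?_
  intro P hP
  rw [AA, compl_compl] at hP
  exact mem_chp.2 hP

theorem par_mem_AA (c : Fin 4 → ℂ) : chp.par c ∉ AA := by
  rw [AA, Set.mem_compl_iff, not_not]
  exact mem_chp.1 (chp.par_mem trivial)

theorem co_par_AA (c : Fin 4 → ℂ) : chp.co (chp.par c) = c := chp.co_par trivial

theorem par_co_AA (P : V) (h : P ∉ AA) : chp.par (chp.co P) = P := by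
  rw [AA, Set.mem_compl_iff, not_not] at h
  exact chp.par_co (mem_chp.2 h)

end Pool.Agent.K1H15.C4
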