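import Pool.Agent.K1H15.C4.Charts

/-! The complex manifold. -/

set_option autoImplicit false

namespace Pool.Agent.K1H15.C4

open scoped Topology ContDiff Manifold

/-- a primitive third root of unity -/
noncomputable def om : ℂ := ⟨-(1 / 2), Real.sqrt 3 / 2⟩

theorem om_eq : om ^ 2 + om + 1 = 0 := by
  have h3 : Real.sqrt 3 * Real.sqrt 3 = 3 := Real.mul_self_sqrt (by norm_num)
  apply Complex.ext
  · simp only [om, pow_two, Complex.add_re, Complex.mul_re, Complex.one_re, Complex.zero_re]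
    nlinarith
  · simp only [om, pow_two, Complex.add_im, Complex.mul_im, Complex.one_im, Complex.zero_im]
    ring

theorem om_im : om.im ≠ 0 := by
  have : 0 < Real.sqrt 3 := Real.sqrt_pos.2 (by norm_num)
  simp only [om]
  positivity

/-- the roots of `r ^ 4 = r` -/
noncomputable def rt : Fin 4 → ℂ := ![0, 1, om, -1 - om]

theorem rt_root (i : Fin 4) : rt i ^ 4 = rt i := by
  fin_cases i
  · simp [rt]
  · simp [rt]
  · change om ^ 4 = om
    linear_combination (om ^ 2 - om) * om_eq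
  · change (-1 - om) ^ 4 = -1 - om
    linear_combination (om ^ 2 + 3 * om + 2) * om_eq

theorem rt_surj {r : ℂ} (h : r ^ 4 = r) : ∃ i, rt i = r := by
  have h1 : r * ((r - 1) * ((r - om) * (r - (-1 - om)))) = 0 := by
    linear_combination h + (-r ^ 2 + r) * om_eq
  rcases mul_eq_zero.1 h1 with h2 | h2
  · exact ⟨0, h2.symm⟩
  rcases mul_eq_zero.1 h2 with h3 | h3
  · exact ⟨1, (sub_eq_zero.1 h3).symm⟩
  rcases mul_eq_zero.1 h3 with h4 | h4
  · exact ⟨2, (sub_eq_zero.1 h4).symm⟩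
  · exact ⟨3, (sub_eq_zero.1 h4).symm⟩

theorem rt_inj : Function.Injective rt := by
  have h1 := om_im
  have h0 : om ≠ 0 := fun h => h1 (by rw [h]; rfl)
  have h2 : om ≠ 1 := fun h => h1 (by rw [h]; rfl)
  have h3 : (-1 - om : ℂ) ≠ 0 := fun h => h1 (by
    have h4 := congrArg Complex.im h
    simpa using h4)
  have h4 : (-1 - om : ℂ) ≠ 1 := fun h => h1 (by
    have h4 := congrArg Complex.im h
    simpa using h4)
  have h5 : (-1 - om : ℂ) ≠ om := fun h => h1 (by
    have h4 := congrArg Complex.im h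
    simp only [Complex.sub_im, Complex.neg_im, Complex.one_im] at h4
    linarith)
  intro i j hij
  fin_cases i <;> fin_cases j <;> first
    | rfl
    | exact absurd hij zero_ne_one
    | exact absurd hij one_ne_zero
    | exact absurd hij h0
    | exact absurd hij.symm h0
    | exact absurd hij h2
    | exact absurd hij.symm h2
    | exact absurd hij h3
    | exact absurd hij.symm h3
    | exact absurd hij h4
    | exact absurd hij.symm h4
    | exact absurd hij h5
    | exact absurd hij.symm h5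

/-- separation of the roots -/
theorem sep {a b : ℂ} (ha : a ^ 4 = a) (hb : b ^ 4 = b) (hab : a ≠ b) : 1 ≤ ‖a - b‖ := by
  have key : ∀ c : ℂ, c ^ 4 = c → c ≠ 0 → c ^ 3 = 1 ∧ ‖c‖ = 1 := by
    intro c hc h0
    have h1 : c * (c ^ 3 - 1) = 0 := by linear_combination hc
    have h2 : c ^ 3 = 1 := by
      rcases mul_eq_zero.1 h1 with h | h
      · exact absurd h h0
      · linear_combination h
    refine ⟨h2, ?_⟩
    have h3 : ‖c‖ ^ 3 = 1 := by rw [← norm_pow, h2, norm_one]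
    exact (pow_eq_one_iff_of_nonneg (norm_nonneg c) (by norm_num)).1 h3
  by_cases h0 : a = 0
  · subst h0
    rw [zero_sub, norm_neg, (key b hb (Ne.symm hab)).2]
  by_cases h0' : b = 0
  · subst h0'
    rw [sub_zero, (key a ha hab).2]
  obtain ⟨a3, an⟩ := key a ha h0
  obtain ⟨b3, bn⟩ := key b hb h0'
  have h1 : (a - b) * (a ^ 2 + a * b + b ^ 2) = 0 := by linear_combination a3 - b3
  have h2 : a ^ 2 + a * b + b ^ 2 = 0 := by
    rcases mul_eq_zero.1 h1 with h | h
    · exact absurd (sub_eq_zero.1 h) hab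
    · exact h
  have h3 : (a - b) ^ 2 = -3 * (a * b) := by linear_combination h2
  have h4 : ‖a - b‖ ^ 2 = 3 := by
    rw [← norm_pow, h3, norm_mul, norm_mul, an, bn]
    norm_num
  nlinarith [norm_nonneg (a - b)]

/-- the data at the roots -/
noncomputable def RDi (i : Fin 4) : RD (rt i) := (exists_RD (rt_root i)).some

/-- the charts at the isolated fixed points -/
noncomputable def chT (i : Fin 4) : Ch := (RDi i).ch

/-- index set of the charts -/
inductive Ix
  | p | t | w | d | T (i : Fin 4)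

/-- the charts -/
noncomputable def ch : Ix → Ch
  | .p => chp
  | .t => cht
  | .w => chw
  | .d => chd
  | .T i => chT i

theorem mem_chp {P : V} : P ∈ chp.src ↔ P ∈ UU 0 := ⟨fun h => h.1, fun h => ⟨h, trivial⟩⟩

theorem mem_cht {P : V} : P ∈ cht.src ↔ P ∈ UU 4 := ⟨fun h => h.1, fun h => ⟨h, trivial⟩⟩

theorem mem_chw {P : V} : P ∈ chw.src ↔ P ∈ UU 10 := ⟨fun h => h.1, fun h => ⟨h, trivial⟩⟩

theorem mem_chd {P : V} : P ∈ chd.src ↔ P ∈ UU 11 := ⟨fun h => h.1, fun h => ⟨h, trivial⟩⟩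

/-- the points outside the charts `p = 1` and `t = 1` -/
theorem cover_T {P : V} (h0 : P ∉ UU 0) (h4 : P ∉ UU 4) (h7 : P ∈ UU 7) :
    ∃ i, P ∈ (chT i).src := by
  have hE := rat_Eqs h7
  rw [mem_UU_iff h7, not_not] at h0 h4
  unfold Eqs at hE
  rw [h0, h4, rat_self h7] at hE
  have h1 := hE.pt
  obtain ⟨i, hi⟩ := rt_surj hE.cell
  refine ⟨i, h7, ?_⟩
  have hp : 0 < (RDi i).ε / 2 := by
    have := (RDi i).hε
    linarith
  have hd : 0 < (RDi i).δ := (RDi i).hδ
  refine ⟨⟨?_, ?_, ?_, ?_⟩, ?_⟩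
  · change ‖rat 7 P 11 * rat 7 P 4‖ < _
    rw [h4, mul_zero, norm_zero]
    exact hp
  · change ‖rat 7 P 2 * rat 7 P 8‖ < _
    rw [h1.2, zero_mul, norm_zero]
    exact hp
  · change ‖rat 7 P 11 * rat 7 P 2 ^ 2‖ < _
    rw [h1.2, zero_pow two_ne_zero, mul_zero, norm_zero]
    exact hp
  · change ‖rat 7 P 4 * rat 7 P 8 ^ 2‖ < _
    rw [h4, zero_mul, norm_zero]
    exact hp
  · change ‖rat 7 P 5 - rt i‖ < _
    have h2 : rat 7 P 5 - rt i = 0 := by rw [← hi, sub_self]
    rw [h2, norm_zero]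
    exact hd

/-- the points outside the charts `p = 1`, `t = 1`, `n = 1` -/
theorem cover_F {P : V} (h0 : P ∉ UU 0) (h4 : P ∉ UU 4) (h7 : P ∉ UU 7) {j : Fin 12}
    (hj : P ∈ UU j) : j = 10 ∨ j = 11 := by
  obtain ⟨a, ha, h, rfl⟩ := exists_mk P
  rw [mk_mem_UU, not_not] at h0 h4 h7
  rw [mk_mem_UU] at hj
  unfold Eqs at h
  rw [h0, h4, h7] at h
  obtain ⟨h1, h2, h3, h5, h6, h8, h9⟩ := h.ptn
  fin_cases j
  · exact absurd h0 hj
  · exact absurd h1 hj
  · exact absurd h2 hj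
  · exact absurd h3 hj
  · exact absurd h4 hj
  · exact absurd h5 hj
  · exact absurd h6 hj
  · exact absurd h7 hj
  · exact absurd h8 hj
  · exact absurd h9 hj
  · left; rfl
  · right; rfl

theorem exists_UU (P : V) : ∃ j, P ∈ UU j := by
  obtain ⟨a, ha, h, rfl⟩ := exists_mk P
  obtain ⟨j, hj⟩ := Function.ne_iff.1 ha
  exact ⟨j, (mk_mem_UU ha h).2 hj⟩

theorem cover_wd {P : V} (h0 : P ∉ UU 0) (h4 : P ∉ UU 4) (h7 : P ∉ UU 7) :
    P ∈ UU 10 ∨ P ∈ UU 11 := by
  obtain ⟨j, hj⟩ := exists_UU P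
  rcases cover_F h0 h4 h7 hj with rfl | rfl
  · exact Or.inl hj
  · exact Or.inr hj

theorem cover (P : V) : ∃ i, P ∈ (ch i).src := by
  by_cases h0 : P ∈ UU 0
  · exact ⟨.p, mem_chp.2 h0⟩
  by_cases h4 : P ∈ UU 4
  · exact ⟨.t, mem_cht.2 h4⟩
  by_cases h7 : P ∈ UU 7
  · obtain ⟨i, hi⟩ := cover_T h0 h4 h7
    exact ⟨.T i, hi⟩
  rcases cover_wd h0 h4 h7 with h | h
  · exact ⟨.w, mem_chw.2 h⟩
  · exact ⟨.d, mem_chd.2 h⟩

/-- the atlas -/
noncomputable instance : ChartedSpace (Fin 4 → ℂ) V where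
  atlas := Set.range fun i => (ch i).e
  chartAt := fun P => (ch (cover P).choose).e
  mem_chart_source := fun P => (cover P).choose_spec
  chart_mem_atlas := fun _ => ⟨_, rfl⟩

instance : IsManifold 𝓘(ℂ, Fin 4 → ℂ) ω V := by
  apply isManifold_of_contDiffOn
  rintro _ _ ⟨i, rfl⟩ ⟨j, rfl⟩
  refine ((ch i).trans (ch j)).mono ?_
  rintro c ⟨hc, _⟩
  rw [Set.mem_preimage, OpenPartialHomeomorph.trans_source] at hc
  exact ⟨hc.1, hc.2⟩

theorem ch_mem (i : Ix) : (ch i).e ∈ IsManifold.maximalAtlas 𝓘(ℂ, Fin 4 → ℂ) ω V :=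
  IsManifold.subset_maximalAtlas ⟨i, rfl⟩

/-- the chart domains are connected -/
theorem src_preconn (A : Ch) (h : ∀ c ∈ A.D, ∀ r : ℝ, 0 ≤ r → r ≤ 1 → (r : ℂ) • c ∈ A.D) :
    IsPreconnected A.src := by
  have h1 : IsPreconnected A.D := by
    by_cases hne : A.D.Nonempty
    · have : StarConvex ℝ 0 A.D := by
        rw [starConvex_zero_iff]
        intro c hc r h0 h1
        exact h c hc r h0 h1
      obtain ⟨c, hc⟩ := hne
      have h0 : (0 : Fin 4 → ℂ) ∈ A.D := by
        have := h c hc 0 le_rfl zero_le_one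
        simpa using this
      exact (this.isPathConnected h0).isConnected.isPreconnected
    · rw [Set.not_nonempty_iff_eq_empty] at hne
      rw [hne]
      exact isPreconnected_empty
  have h2 : A.src = A.par '' A.D := by
    ext P
    constructor
    · intro hP
      exact ⟨A.co P, A.co_mem hP, A.par_co hP⟩
    · rintro ⟨c, hc, rfl⟩
      exact A.par_mem hc
  rw [h2]
  exact h1.image _ A.par_continuousOn

end Pool.Agent.K1H15.C4
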