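import Pool.Agent.K1H15.C4.Alg

/-! The linear section of `LG(3, 6)` as a compact space: a point is represented by the orthogonal
projection on the corresponding line of `ℂ ^ 12`. -/

set_option autoImplicit false

namespace Pool.Agent.K1H15.C4

open scoped Topology ContDiff

/-- the equations, coordinates in the order `p x y z t r s n u v w d` -/
def Eqs (a : Fin 12 → ℂ) : Prop :=
  E (a 0) (a 1) (a 2) (a 3) (a 4) (a 5) (a 6) (a 7) (a 8) (a 9) (a 10) (a 11)

theorem Eqs.smul {a : Fin 12 → ℂ} (h : Eqs a) (c : ℂ) : Eqs (c • a) := E.smul h c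

theorem E_iff (p x y z t r s n u v w d : ℂ) : E p x y z t r s n u v w d ↔
    (p * n = s * t - y ^ 2 ∧ p * r = x * y - z * t ∧ p * s = r * t - x ^ 2 ∧
    p * u = z * y - x * s ∧ p * v = z * x - r * y ∧ p * w = r * s - z ^ 2 ∧
    d * r = s * w - v ^ 2 ∧ d * z = u * v - r * w ∧ d * x = r * v - u * s ∧
    d * s = n * w - u ^ 2 ∧ d * y = r * u - n * v ∧ d * t = n * s - r ^ 2 ∧
    r * n + z * r + x * u = p * d ∧ r * r + z * s + x * v = 0 ∧ r * u + z * v + x * w = 0 ∧
    z * n + s * r + y * u = 0 ∧ z * r + s * s + y * v = p * d ∧ z * u + s * v + y * w = 0 ∧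
    x * n + y * r + t * u = 0 ∧ x * r + y * s + t * v = 0 ∧ x * u + y * v + t * w = p * d) := by
  constructor
  · rintro ⟨e1, e2, e3, e4, e5, e6, e7, e8, e9, e10, e11, e12, e13, e14, e15, e16, e17, e18, e19,
      e20, e21⟩
    exact ⟨e1, e2, e3, e4, e5, e6, e7, e8, e9, e10, e11, e12, e13, e14, e15, e16, e17, e18, e19,
      e20, e21⟩
  · rintro ⟨e1, e2, e3, e4, e5, e6, e7, e8, e9, e10, e11, e12, e13, e14, e15, e16, e17, e18, e19,
      e20, e21⟩
    exact ⟨e1, e2, e3, e4, e5, e6, e7, e8, e9, e10, e11, e12, e13, e14, e15, e16, e17, e18, e19,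
      e20, e21⟩

theorem isClosed_Eqs : IsClosed {a : Fin 12 → ℂ | Eqs a} := by
  simp only [Eqs, E_iff, Set.ofPred_and]
  repeat'
    first
    | exact isClosed_eq (by fun_prop) (by fun_prop)
    | apply IsClosed.inter

/-- the squared norm -/
noncomputable def nn (a : Fin 12 → ℂ) : ℝ := ∑ i, ‖a i‖ ^ 2

theorem nn_continuous : Continuous nn := by
  unfold nn
  fun_prop

theorem nn_pos {a : Fin 12 → ℂ} (h : a ≠ 0) : 0 < nn a := by
  obtain ⟨i, hi⟩ := Function.ne_iff.1 h
  refine lt_of_lt_of_le ?_ (Finset.single_le_sum (f := fun i => ‖a i‖ ^ 2)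
    (fun i _ => by positivity) (Finset.mem_univ i))
  have : 0 < ‖a i‖ := norm_pos_iff.2 hi
  positivity

theorem nn_smul (c : ℂ) (a : Fin 12 → ℂ) : nn (c • a) = ‖c‖ ^ 2 * nn a := by
  unfold nn
  rw [Finset.mul_sum]
  refine Finset.sum_congr rfl fun i _ => ?_
  rw [Pi.smul_apply, norm_smul, mul_pow]

/-- the projection on the line of `a` -/
noncomputable def pr (a : Fin 12 → ℂ) : Fin 12 → Fin 12 → ℂ :=
  fun i j => a i * (starRingEnd ℂ) (a j) / (nn a : ℂ)

theorem pr_smul {c : ℂ} (hc : c ≠ 0) (a : Fin 12 → ℂ) : pr (c • a) = pr a := by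
  funext i j
  unfold pr
  rw [nn_smul, Pi.smul_apply, Pi.smul_apply, smul_eq_mul, smul_eq_mul, map_mul]
  have h1 : ((‖c‖ ^ 2 * nn a : ℝ) : ℂ) = (c * (starRingEnd ℂ) c) * (nn a : ℂ) := by
    rw [Complex.mul_conj]
    push_cast
    congr 1
    rw [Complex.normSq_eq_norm_sq]
    push_cast
    rfl
  rw [h1]
  have h2 : c * a i * ((starRingEnd ℂ) c * (starRingEnd ℂ) (a j)) =
      (c * (starRingEnd ℂ) c) * (a i * (starRingEnd ℂ) (a j)) := by ring
  rw [h2, mul_div_mul_left]
  simpa using hc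

theorem pr_ne {a : Fin 12 → ℂ} (ha : a ≠ 0) (j : Fin 12) : pr a j j ≠ 0 ↔ a j ≠ 0 := by
  have h := nn_pos ha
  have h' : (nn a : ℂ) ≠ 0 := by exact_mod_cast h.ne'
  simp [pr, h', div_eq_zero_iff]

theorem pr_ratio {a : Fin 12 → ℂ} {j : Fin 12} (hj : a j ≠ 0) (i : Fin 12) :
    pr a i j / pr a j j = a i / a j := by
  have ha : a ≠ 0 := fun h => hj (by rw [h]; rfl)
  have h := nn_pos ha
  have h' : (nn a : ℂ) ≠ 0 := by exact_mod_cast h.ne'
  have h2 : (starRingEnd ℂ) (a j) ≠ 0 := by simpa using hj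
  unfold pr
  field_simp

theorem pr_continuousOn : ContinuousOn pr {a | a ≠ 0} := by
  unfold pr
  refine continuousOn_pi.2 fun i => continuousOn_pi.2 fun j => ?_
  refine ContinuousOn.div ?_ ?_ ?_
  · have : Continuous fun a : Fin 12 → ℂ => a i * (starRingEnd ℂ) (a j) := by
      have h := Complex.continuous_conj
      fun_prop
    exact this.continuousOn
  · exact (Complex.continuous_ofReal.comp nn_continuous).continuousOn
  · intro a ha
    exact_mod_cast (nn_pos ha).ne'

/-- the points -/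
def VV : Set (Fin 12 → Fin 12 → ℂ) := {P | ∃ a, a ≠ 0 ∧ Eqs a ∧ P = pr a}

/-- the variety -/
abbrev V : Type := ↥VV

theorem VV_eq : VV = pr '' {a | nn a = 1 ∧ Eqs a} := by
  ext P
  constructor
  · rintro ⟨a, ha, h, rfl⟩
    have h0 := nn_pos ha
    have h1 : 0 < Real.sqrt (nn a) := Real.sqrt_pos.2 h0
    refine ⟨((Real.sqrt (nn a) : ℝ) : ℂ)⁻¹ • a, ⟨?_, h.smul _⟩, pr_smul ?_ a⟩
    · rw [nn_smul, norm_inv, Complex.norm_real, Real.norm_of_nonneg h1.le, inv_pow,
        Real.sq_sqrt h0.le, inv_mul_cancel₀ h0.ne']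
    · exact inv_ne_zero (by exact_mod_cast h1.ne')
  · rintro ⟨a, ⟨h1, h2⟩, rfl⟩
    refine ⟨a, ?_, h2, rfl⟩
    rintro rfl
    simp [nn] at h1

theorem isCompact_VV : IsCompact VV := by
  rw [VV_eq]
  apply IsCompact.image_of_continuousOn
  · refine Metric.isCompact_of_isClosed_isBounded ?_ ?_
    · exact (isClosed_eq nn_continuous continuous_const).inter isClosed_Eqs
    · rw [isBounded_iff_forall_norm_le]
      refine ⟨1, ?_⟩
      rintro a ⟨h1, _⟩
      rw [pi_norm_le_iff_of_nonneg zero_le_one]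
      intro i
      have h2 : ‖a i‖ ^ 2 ≤ nn a := Finset.single_le_sum (f := fun i => ‖a i‖ ^ 2)
        (fun i _ => by positivity) (Finset.mem_univ i)
      rw [h1] at h2
      nlinarith [norm_nonneg (a i)]
  · refine pr_continuousOn.mono ?_
    rintro a ⟨h1, _⟩ rfl
    simp [nn] at h1

instance : CompactSpace V := isCompact_iff_compactSpace.1 isCompact_VV

/-- the point with given homogeneous coordinates -/
noncomputable def mk (a : Fin 12 → ℂ) (ha : a ≠ 0) (h : Eqs a) : V := ⟨pr a, a, ha, h, rfl⟩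

/-- the homogeneous coordinates normalised at `j` -/
noncomputable def rat (j : Fin 12) (P : V) : Fin 12 → ℂ := fun i => P.1 i j / P.1 j j

/-- the open set where the `j`-th coordinate is not zero -/
def UU (j : Fin 12) : Set V := {P | P.1 j j ≠ 0}

theorem UU_open (j : Fin 12) : IsOpen (UU j) := by
  have : Continuous fun P : V => P.1 j j :=
      (continuous_apply j).comp ((continuous_apply j).comp continuous_subtype_val)
  exact isOpen_ne_fun this continuous_const

theorem rat_continuousOn (j : Fin 12) : ContinuousOn (rat j) (UU j) := by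
  refine continuousOn_pi.2 fun i => ?_
  refine ContinuousOn.div ?_ ?_ fun P hP => hP
  · have : Continuous fun P : V => P.1 i j :=
      (continuous_apply j).comp ((continuous_apply i).comp continuous_subtype_val)
    exact this.continuousOn
  · have : Continuous fun P : V => P.1 j j :=
      (continuous_apply j).comp ((continuous_apply j).comp continuous_subtype_val)
    exact this.continuousOn

theorem rat_self {j : Fin 12} {P : V} (hP : P ∈ UU j) : rat j P j = 1 := div_self hP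

theorem rat_mk {j : Fin 12} {a : Fin 12 → ℂ} (ha : a ≠ 0) (h : Eqs a) (hj : a j ≠ 0) :
    rat j (mk a ha h) = (a j)⁻¹ • a := by
  funext i
  change pr a i j / pr a j j = _
  rw [pr_ratio hj, Pi.smul_apply, smul_eq_mul, div_eq_inv_mul]

theorem mk_mem_UU {j : Fin 12} {a : Fin 12 → ℂ} (ha : a ≠ 0) (h : Eqs a) :
    mk a ha h ∈ UU j ↔ a j ≠ 0 := pr_ne ha j

theorem exists_mk (P : V) : ∃ a, ∃ ha : a ≠ 0, ∃ h : Eqs a, P = mk a ha h := by
  obtain ⟨_, a, ha, h, rfl⟩ := P
  exact ⟨a, ha, h, rfl⟩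

theorem rat_Eqs {j : Fin 12} {P : V} (hP : P ∈ UU j) : Eqs (rat j P) := by
  obtain ⟨a, ha, h, rfl⟩ := exists_mk P
  rw [mk_mem_UU] at hP
  rw [rat_mk ha h hP]
  exact h.smul _

theorem rat_ne {j : Fin 12} {P : V} (hP : P ∈ UU j) : rat j P ≠ 0 := by
  intro h
  have := rat_self hP
  rw [h] at this
  exact zero_ne_one this

theorem mk_rat {j : Fin 12} {P : V} (hP : P ∈ UU j) : mk (rat j P) (rat_ne hP) (rat_Eqs hP) = P := by
  obtain ⟨a, ha, h, rfl⟩ := exists_mk P
  have hP' := hP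
  rw [mk_mem_UU] at hP'
  apply Subtype.ext
  change pr (rat j (mk a ha h)) = pr a
  rw [rat_mk ha h hP', pr_smul (inv_ne_zero hP')]

theorem mk_congr {a b : Fin 12 → ℂ} (ha : a ≠ 0) (hb : b ≠ 0) (h : Eqs a) (h' : Eqs b)
    (e : a = b) : mk a ha h = mk b hb h' := by
  subst e; rfl

/-- change of the normalisation -/
theorem rat_rat {i j : Fin 12} {P : V} (hi : P ∈ UU i) (hj : P ∈ UU j) :
    rat j P = (rat i P j)⁻¹ • rat i P := by
  obtain ⟨a, ha, h, rfl⟩ := exists_mk P
  have hi' := hi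
  have hj' := hj
  rw [mk_mem_UU] at hi' hj'
  rw [rat_mk ha h hi', rat_mk ha h hj', Pi.smul_apply, smul_eq_mul, smul_smul]
  congr 1
  field_simp

theorem mem_UU_iff {i j : Fin 12} {P : V} (hi : P ∈ UU i) : P ∈ UU j ↔ rat i P j ≠ 0 := by
  obtain ⟨a, ha, h, rfl⟩ := exists_mk P
  have hi' := hi
  rw [mk_mem_UU] at hi' ⊢
  rw [rat_mk ha h hi', Pi.smul_apply, smul_eq_mul]
  simp [hi']

end Pool.Agent.K1H15.C4
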